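import Pool.Agent.helper35.BQ.Spec

set_option autoImplicit false

open Pool.Agent.helper58.DC Pool.Agent.DI Pool.Agent.DR Pool.Agent.NQ

namespace Pool.Agent.BQ

private theorem NRM_omega {H K : Type} [Group H] [Group K] (c : H ≃* K) (φ : K → ℂ) (g : H) :
    omega (fun x => φ (c x)) g = omega φ (c g) := by
  unfold omega
  have h1 : (fun x => φ (c x)) 1 = φ 1 := by
    show φ (c 1) = φ 1
    rw [map_one]
  rw [h1]
  congr 1
  have h2 : ∀ x : H, x ∈ conjugatesOf g ↔ c x ∈ conjugatesOf (c g) := by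
    intro x
    change IsConj g x ↔ IsConj (c g) (c x)
    rw [isConj_iff, isConj_iff]
    constructor
    · rintro ⟨b, rfl⟩
      exact ⟨c b, by simp only [map_mul, map_inv]⟩
    · rintro ⟨b, hb⟩
      refine ⟨c.symm b, c.injective ?_⟩
      simpa only [map_mul, map_inv, MulEquiv.apply_symm_apply] using hb
  rw [← finsum_comp_equiv c.toEquiv (f := fun x => ∑ᶠ (_ : x ∈ conjugatesOf (c g)), φ x)]
  refine finsum_congr fun x => ?_
  change (∑ᶠ (_ : x ∈ conjugatesOf g), φ (c x)) = ∑ᶠ (_ : c x ∈ conjugatesOf (c g)), φ (c x)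
  classical
  by_cases hx : x ∈ conjugatesOf g
  · rw [finsum_eq_if, finsum_eq_if, if_pos hx, if_pos ((h2 x).1 hx)]
  · rw [finsum_eq_if, finsum_eq_if, if_neg hx, if_neg fun h => hx ((h2 x).2 h)]

section

variable {G E A : Type} [Group G] [Group E] [Group A] (X : Extension G E A)

private theorem NRM_mem (e y x : E) (h : x ∈ GY X y) : e * x * e⁻¹ ∈ GY X (e * y * e⁻¹) := by
  obtain ⟨k, hk⟩ : ∃ k : ℤ, X.proj y ^ k = X.proj x := Subgroup.mem_zpowers_iff.1 h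
  change X.proj (e * x * e⁻¹) ∈ Subgroup.zpowers (X.proj (e * y * e⁻¹))
  refine Subgroup.mem_zpowers_iff.2 ⟨k, ?_⟩
  rw [map_mul, map_mul, map_mul, map_mul, map_inv, conj_zpow, hk]

private theorem NRM_mem' (e y x : E) (h : x ∈ GY X (e * y * e⁻¹)) : e⁻¹ * x * e ∈ GY X y := by
  have h1 := NRM_mem X e⁻¹ _ x h
  have h2 : e⁻¹ * (e * y * e⁻¹) * e⁻¹⁻¹ = y := by group
  rwa [h2, inv_inv] at h1

/-- conjugation `GY (e y e⁻¹) ≃* GY y` -/
private def NRM_c (e y : E) : GY X (e * y * e⁻¹) ≃* GY X y where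
  toFun x := ⟨e⁻¹ * x * e, NRM_mem' X e y x x.2⟩
  invFun x := ⟨e * x * e⁻¹, NRM_mem X e y x x.2⟩
  left_inv x := Subtype.ext (by
    show e * (e⁻¹ * (x : E) * e) * e⁻¹ = x
    group)
  right_inv x := Subtype.ext (by
    show e⁻¹ * (e * (x : E) * e⁻¹) * e = x
    group)
  map_mul' x x' := Subtype.ext (by
    show e⁻¹ * ((x : E) * x') * e = (e⁻¹ * x * e) * (e⁻¹ * x' * e)
    group)

private theorem NRM_inner [Finite G] (hIRT : IRT_stmt) (hIM : IM_stmt) (M : Ideal (integralClosure ℤ ℂ))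
    (χ : G → ℂ) (e y : E) (he : Induces M (funMap (X.act e) χ) χ) (h : Inner X M χ y) :
    Inner X M χ (e * y * e⁻¹) := by
  obtain ⟨φ, hφ, ⟨χ', hχ', hI, hs⟩, ho⟩ := h
  refine ⟨fun x => φ (NRM_c X e y x), hIRT _ _ (NRM_c X e y) φ hφ,
    ⟨funMap (X.act e) χ', hIRT G G ((X.act e)⁻¹ : MulAut G) χ' hχ', ?_, ?_⟩, ?_⟩
  · obtain ⟨-, -, htr, hα⟩ := hIM G M (funMap (X.act e) χ') (funMap (X.act e) χ) χ
    refine htr ?_ he
    exact ((hIM G M χ' χ χ).2.2.2 (X.act e)).2 hI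
  · have h1 : ∀ g : G, φ (NRM_c X e y (incY X (e * y * e⁻¹) g)) * funMap (X.act e) χ' g⁻¹ =
        (fun g : G => φ (incY X y g) * χ' g⁻¹) ((X.act e)⁻¹ g) := by
      intro g
      have h2 : NRM_c X e y (incY X (e * y * e⁻¹) g) = incY X y ((X.act e)⁻¹ g) := by
        refine Subtype.ext ?_
        show e⁻¹ * X.inc g * e = X.inc ((X.act e)⁻¹ g)
        rw [← map_inv, X.act_spec, inv_inv]
      rw [h2]
      show φ (incY X y ((X.act e)⁻¹ g)) * χ' ((X.act e)⁻¹ g⁻¹) =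
        φ (incY X y ((X.act e)⁻¹ g)) * χ' ((X.act e)⁻¹ g)⁻¹
      rw [map_inv]
    rw [finsum_congr h1]
    have h3 := finsum_comp_equiv (((X.act e)⁻¹ : MulAut G)).toEquiv
      (f := fun g : G => φ (incY X y g) * χ' g⁻¹)
    intro h4
    exact hs (h3.symm.trans h4)
  · rintro ⟨a, ha, hae⟩
    refine ho ⟨a, ha, ?_⟩
    rw [← hae, NRM_omega (NRM_c X e y) φ]
    congr 1
    refine Subtype.ext ?_
    show y = e⁻¹ * (e * y * e⁻¹) * e
    group

end

theorem NRM (hIRT : IRT_stmt) (hIM : IM_stmt) (hOM : OM_stmt) : NRM_stmt := by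
  have _ := hOM
  intro G E A _ _ _ _ _ X M χ _ v hv w hw
  obtain ⟨e, rfl, he⟩ := hv
  refine Subgroup.closure_induction (p := fun a _ => X.proj e * a * (X.proj e)⁻¹ ∈ AI X M χ)
    ?_ ?_ ?_ ?_ hw
  · rintro a ⟨y, rfl, hy⟩
    refine Subgroup.subset_closure ⟨e * y * e⁻¹, ?_, NRM_inner X hIRT hIM M χ e y he hy⟩
    rw [map_mul, map_mul, map_inv]
  · rw [mul_one, mul_inv_cancel]
    exact Subgroup.one_mem _
  · intro a b _ _ ha hb
    have h1 : X.proj e * (a * b) * (X.proj e)⁻¹ =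
        (X.proj e * a * (X.proj e)⁻¹) * (X.proj e * b * (X.proj e)⁻¹) := by group
    rw [h1]
    exact Subgroup.mul_mem _ ha hb
  · intro a _ ha
    have h1 : X.proj e * a⁻¹ * (X.proj e)⁻¹ = (X.proj e * a * (X.proj e)⁻¹)⁻¹ := by group
    rw [h1]
    exact Subgroup.inv_mem _ ha

end Pool.Agent.BQ
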