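import Pool.Agent.helper76.BQ.TDefs
import Pool.Agent.helper76.BQ.BDefs
import Pool.Agent.helper76.BQ.BGood

/-!
Project bq, module B4: integral symplectic matrices of unitary pairs.
-/

open Matrix Complex

namespace Pool.Agent.helper76.BQ

variable {F : Type} [Field F] [NumberField F]

theorem B4_pair_eq {k : ℕ} (d : F) (δ : Fin k → F) (x y : Fin k → Fin 3 → F) :
    pair d δ x y = Algebra.trace ℚ F (∑ l, δ l * (x l ⬝ᵥ (HH d *ᵥ y l))) := by
  unfold pair HH
  congr 1
  refine Finset.sum_congr rfl fun l _ => ?_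
  simp only [dotProduct, Matrix.mulVec_diagonal, Fin.sum_univ_three, Matrix.cons_val_zero,
    Matrix.cons_val_one, Matrix.cons_val]
  ring

theorem B4_pair_comm {k : ℕ} (d : F) (δ : Fin k → F) (x y : Fin k → Fin 3 → F) :
    pair d δ x y = pair d δ y x := by
  unfold pair
  congr 1
  refine Finset.sum_congr rfl fun l _ => ?_
  ring

theorem B4_pair_add {k : ℕ} (d : F) (δ : Fin k → F) (x x' y : Fin k → Fin 3 → F) :
    pair d δ (x + x') y = pair d δ x y + pair d δ x' y := by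
  unfold pair
  rw [← map_add, ← Finset.sum_add_distrib]
  congr 1
  refine Finset.sum_congr rfl fun l _ => ?_
  simp only [Pi.add_apply]
  ring

theorem B4_pair_smul {k : ℕ} (d : F) (δ : Fin k → F) (c : ℚ) (x y : Fin k → Fin 3 → F) :
    pair d δ ((c : F) • x) y = c * pair d δ x y := by
  unfold pair
  rw [← smul_eq_mul, ← map_smul]
  congr 1
  rw [Finset.smul_sum]
  refine Finset.sum_congr rfl fun l _ => ?_
  rw [Rat.smul_def]
  simp only [Pi.smul_apply, smul_eq_mul]
  ring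

theorem B4_pair_zero {k : ℕ} (d : F) (δ : Fin k → F) (y : Fin k → Fin 3 → F) :
    pair d δ 0 y = 0 := by
  have h := B4_pair_smul d δ 0 (0 : Fin k → Fin 3 → F) y
  rw [Rat.cast_zero, zero_smul, zero_mul] at h
  exact h

theorem B4_pair_sum {k : ℕ} (d : F) (δ : Fin k → F) {ι : Type} (s : Finset ι) (c : ι → ℚ)
    (x : ι → Fin k → Fin 3 → F) (y : Fin k → Fin 3 → F) :
    pair d δ (∑ i ∈ s, (c i : F) • x i) y = ∑ i ∈ s, c i * pair d δ (x i) y := by
  classical
  induction s using Finset.induction_on with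
  | empty => simpa using B4_pair_zero d δ y
  | insert a s ha ih => rw [Finset.sum_insert ha, Finset.sum_insert ha, B4_pair_add, B4_pair_smul, ih]

theorem B4_pair_sum_right {k : ℕ} (d : F) (δ : Fin k → F) {ι : Type} (s : Finset ι) (c : ι → ℚ)
    (x : ι → Fin k → Fin 3 → F) (y : Fin k → Fin 3 → F) :
    pair d δ y (∑ i ∈ s, (c i : F) • x i) = ∑ i ∈ s, c i * pair d δ y (x i) := by
  rw [B4_pair_comm, B4_pair_sum]
  exact Finset.sum_congr rfl fun i _ => by rw [B4_pair_comm]

/-- the pairing of images under two matrices -/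
theorem B4_pair_mact {k : ℕ} (d : F) (δ : Fin k → F) (A B : Matrix (Fin 3) (Fin 3) F)
    (x y : Fin k → Fin 3 → F) :
    pair d δ (mact A x) (mact B y) =
      Algebra.trace ℚ F (∑ l, δ l * (x l ⬝ᵥ ((Aᵀ * HH d * B) *ᵥ y l))) := by
  rw [B4_pair_eq]
  congr 1
  refine Finset.sum_congr rfl fun l _ => ?_
  congr 1
  unfold mact
  rw [Matrix.mulVec_mulVec, ← Matrix.vecMul_transpose, ← Matrix.dotProduct_mulVec,
    Matrix.mulVec_mulVec, Matrix.mul_assoc]

/-- preservation of the form -/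
theorem B4_pres {k : ℕ} {κ d : F} (δ : Fin k → F) {A C : Matrix (Fin 3) (Fin 3) F}
    (h : IsU κ d A C) (x y : Fin k → Fin 3 → F) :
    pair d δ (mact A x) (mact A y) + pair d δ (mact C x) (κ • mact C y) = pair d δ x y := by
  have h1 : κ • mact C y = mact (κ • C) y := by
    unfold mact
    funext l
    rw [Pi.smul_apply, Matrix.smul_mulVec]
  rw [h1, B4_pair_mact, B4_pair_mact, B4_pair_eq, ← map_add, ← Finset.sum_add_distrib]
  congr 1
  refine Finset.sum_congr rfl fun l _ => ?_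
  rw [← mul_add, ← dotProduct_add, ← Matrix.add_mulVec]
  congr 3
  rw [Matrix.mul_smul]
  exact h.1

theorem B4_pres' {k : ℕ} {κ d : F} (δ : Fin k → F) {A C : Matrix (Fin 3) (Fin 3) F}
    (h : IsU κ d A C) (x y : Fin k → Fin 3 → F) :
    pair d δ (mact A x) (mact C y) = pair d δ (mact C x) (mact A y) := by
  rw [B4_pair_mact, B4_pair_mact, h.2]

/-- coordinates of an integral vector are integers -/
theorem B4_int {k : ℕ} {d : F} {δ : Fin k → F} {g : ℕ} {bas dua : Fin g → Fin k → Fin 3 → F}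
    (hL : LB d δ bas dua) {x : Fin k → Fin 3 → F} (hx : ∀ l i, IsIntegral ℤ (x l i)) (j : Fin g) :
    ∃ z : ℤ, pair d δ x (dua j) = z := by
  obtain ⟨c, hc⟩ := (hL.int_iff x).1 hx
  refine ⟨c j, ?_⟩
  have h1 : x = ∑ i, (((c i : ℤ) : ℚ) : F) • bas i := by
    rw [hc]
    exact Finset.sum_congr rfl fun i _ => by norm_num
  rw [h1, B4_pair_sum, Finset.sum_eq_single j]
  · rw [hL.dual, if_pos rfl, mul_one]
  · intro i _ hij
    rw [hL.dual, if_neg hij, mul_zero]
  · intro h; exact absurd (Finset.mem_univ j) h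

theorem B4_bas {k : ℕ} {d : F} {δ : Fin k → F} {g : ℕ} {bas dua : Fin g → Fin k → Fin 3 → F}
    (hL : LB d δ bas dua) (i : Fin g) (l : Fin k) (a : Fin 3) : IsIntegral ℤ (bas i l a) := by
  refine (hL.int_iff (bas i)).2 ⟨Pi.single i 1, ?_⟩ l a
  rw [Finset.sum_eq_single i]
  · simp
  · intro j _ hj
    rw [Pi.single_eq_of_ne hj]; simp
  · intro h; exact absurd (Finset.mem_univ i) h

/-- expansion in the basis -/
theorem B4_expand {k : ℕ} {d : F} {δ : Fin k → F} {g : ℕ} {bas dua : Fin g → Fin k → Fin 3 → F}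
    (hL : LB d δ bas dua) (x : Fin k → Fin 3 → F) :
    x = ∑ j, ((pair d δ x (dua j) : ℚ) : F) • bas j := by
  obtain ⟨c, hc⟩ := hL.span x
  have h1 : ∀ j, pair d δ x (dua j) = c j := by
    intro j
    rw [hc, B4_pair_sum, Finset.sum_eq_single j]
    · rw [hL.dual, if_pos rfl, mul_one]
    · intro i _ hij
      rw [hL.dual, if_neg hij, mul_zero]
    · intro h; exact absurd (Finset.mem_univ j) h
  conv_lhs => rw [hc]
  exact Finset.sum_congr rfl fun j _ => by rw [h1]

theorem B4_alg : Algebra.IsAlgebraic ℤ F :=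
  (IsFractionRing.comap_isAlgebraic_iff (A := ℤ) (K := ℚ) (C := F)).2 inferInstance

/-- bounded denominators of the pairing -/
theorem B4_den {k : ℕ} {d : F} (hdi : IsIntegral ℤ d) (δ : Fin k → F) :
    ∃ D : ℤ, D ≠ 0 ∧ ∀ x y : Fin k → Fin 3 → F, (∀ l i, IsIntegral ℤ (x l i)) →
      (∀ l i, IsIntegral ℤ (y l i)) → ∃ z : ℤ, (D : ℚ) * pair d δ x y = z := by
  classical
  have halg : Algebra.IsAlgebraic ℤ F := B4_alg
  obtain ⟨D, hD, h⟩ := Algebra.IsAlgebraic.exists_integral_multiples ℤ (Finset.univ.image δ)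
  refine ⟨D, hD, fun x y hx hy => ?_⟩
  have h1 : (D : ℚ) * pair d δ x y = Algebra.trace ℚ F
      (∑ l, (D • δ l) * (x l 0 * y l 0 + x l 1 * y l 1 - d * x l 2 * y l 2)) := by
    unfold pair
    rw [← smul_eq_mul, ← map_smul]
    congr 1
    rw [Finset.smul_sum]
    refine Finset.sum_congr rfl fun l _ => ?_
    rw [Algebra.smul_def, zsmul_eq_mul]
    simp only [eq_ratCast, Rat.cast_intCast]
    ring
  rw [h1]
  have h2 : IsIntegral ℤ (∑ l, (D • δ l) * (x l 0 * y l 0 + x l 1 * y l 1 - d * x l 2 * y l 2)) := by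
    refine IsIntegral.sum _ fun l _ => ?_
    refine (h (δ l) (Finset.mem_image_of_mem _ (Finset.mem_univ l))).mul ?_
    exact (((hx l 0).mul (hy l 0)).add ((hx l 1).mul (hy l 1))).sub
      ((hdi.mul (hx l 2)).mul (hy l 2))
  have h3 : IsIntegral ℤ (Algebra.trace ℚ F
      (∑ l, (D • δ l) * (x l 0 * y l 0 + x l 1 * y l 1 - d * x l 2 * y l 2))) :=
    Algebra.isIntegral_trace h2
  obtain ⟨z, hz⟩ := IsIntegrallyClosed.isIntegral_iff.1 h3
  exact ⟨z, by rw [← hz]; simp⟩

/-- bounded denominators of the dual basis -/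
theorem B4_dua {k g : ℕ} (dua : Fin g → Fin k → Fin 3 → F) :
    ∃ D : ℤ, D ≠ 0 ∧ ∀ j l i, IsIntegral ℤ ((D : F) * dua j l i) := by
  classical
  have halg : Algebra.IsAlgebraic ℤ F := B4_alg
  obtain ⟨D, hD, h⟩ := Algebra.IsAlgebraic.exists_integral_multiples ℤ
    (Finset.univ.image fun p : Fin g × Fin k × Fin 3 => dua p.1 p.2.1 p.2.2)
  refine ⟨D, hD, fun j l i => ?_⟩
  have := h (dua j l i) (Finset.mem_image.2 ⟨(j, l, i), Finset.mem_univ _, rfl⟩)
  rwa [zsmul_eq_mul] at this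

omit [NumberField F] in
theorem B4_mact_int {k : ℕ} {A : Matrix (Fin 3) (Fin 3) F} (hA : ∀ i j, IsIntegral ℤ (A i j))
    {x : Fin k → Fin 3 → F} (hx : ∀ l i, IsIntegral ℤ (x l i)) (l : Fin k) (i : Fin 3) :
    IsIntegral ℤ (mact A x l i) := by
  unfold mact Matrix.mulVec dotProduct
  exact IsIntegral.sum _ fun j _ => (hA i j).mul (hx l j)

omit [NumberField F] in
theorem B4_mact_add {k : ℕ} (A B : Matrix (Fin 3) (Fin 3) F) (x : Fin k → Fin 3 → F) :
    mact (A + B) x = mact A x + mact B x := by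
  funext l
  simp only [mact, Matrix.add_mulVec, Pi.add_apply]

omit [NumberField F] in
theorem B4_mact_smul {k : ℕ} (c : F) (B : Matrix (Fin 3) (Fin 3) F) (x : Fin k → Fin 3 → F) :
    mact (c • B) x = c • mact B x := by
  funext l
  simp only [mact, Matrix.smul_mulVec, Pi.smul_apply]

omit [NumberField F] in
theorem B4_mact_one {k : ℕ} (x : Fin k → Fin 3 → F) : mact 1 x = x := by
  funext l
  simp only [mact, Matrix.one_mulVec]

theorem rep_exists {κ d : F} {v0 : F →+* ℝ} (hd : Data κ d v0) (hκ : IsIntegral ℤ κ) (hdi : IsIntegral ℤ d)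
    {k : ℕ} (δ : Fin k → F) (hδ : ∀ l, δ l ≠ 0)
    {g : ℕ} {bas dua : Fin g → Fin k → Fin 3 → F} (hL : LB d δ bas dua) (m : ℕ) (hm : 0 < m) :
    ∃ n : ℕ, 0 < n ∧ ∀ A C : Matrix (Fin 3) (Fin 3) F, IsU κ d A C → Cong n A C →
      ∃ M : Matrix (Fin g ⊕ Fin g) (Fin g ⊕ Fin g) ℤ, Rep κ bas dua A C M ∧ ∀ i j, (m : ℤ) ∣ (M - 1) i j := by
  classical
  obtain ⟨D1, hD1, hden⟩ := B4_den (F := F) hdi δ
  obtain ⟨D2, hD2, hdua⟩ := B4_dua dua
  refine ⟨m * D1.natAbs * D2.natAbs, by positivity, fun A C hU hC => ?_⟩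
  set n : ℕ := m * D1.natAbs * D2.natAbs with hn
  obtain ⟨hA', hC'⟩ := hC
  choose A' hA'i hA'e using hA'
  choose C' hC'i hC'e using hC'
  -- `A = 1 + n A'`, `C = n C'`
  have eA : A = 1 + (n : F) • (Matrix.of A') := by
    ext i j
    rw [Matrix.add_apply, Matrix.smul_apply, Matrix.of_apply, smul_eq_mul]
    exact hA'e i j
  have eC : C = (n : F) • (Matrix.of C') := by
    ext i j
    rw [Matrix.smul_apply, Matrix.of_apply, smul_eq_mul]
    exact hC'e i j
  have hn1 : ((n : ℕ) : ℤ) = m * |D1| * |D2| := by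
    rw [hn]; push_cast; ring
  have hnF : (n : F) = (((n : ℕ) : ℚ) : F) := by norm_num
  have hD1' : ((|D1| : ℤ) : ℚ) ≠ 0 := by
    exact_mod_cast abs_ne_zero.2 hD1
  have hD2' : ((|D2| : ℤ) : ℚ) ≠ 0 := by
    exact_mod_cast abs_ne_zero.2 hD2
  -- pairings with `|D|`
  have hden' : ∀ x y : Fin k → Fin 3 → F, (∀ l i, IsIntegral ℤ (x l i)) →
      (∀ l i, IsIntegral ℤ (y l i)) → ∃ z : ℤ, ((|D1| : ℤ) : ℚ) * pair d δ x y = z := by
    intro x y hx hy
    obtain ⟨z, hz⟩ := hden x y hx hy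
    rcases abs_choice D1 with h | h
    · exact ⟨z, by rw [h, hz]⟩
    · exact ⟨-z, by rw [h]; push_cast; rw [neg_mul, hz]⟩
  have hdua' : ∀ j l i, IsIntegral ℤ ((((|D2| : ℤ) : ℚ) : F) * dua j l i) := by
    intro j l i
    rcases abs_choice D2 with h | h
    · rw [h]; have := hdua j l i; simpa using this
    · rw [h]; have := (hdua j l i).neg; simpa using this
  have hbas := B4_bas hL
  -- the four blocks
  have ha : ∀ j i, ∃ z : ℤ, pair d δ (mact A (bas i)) (dua j) =
      (((1 : Matrix (Fin g) (Fin g) ℤ) j i + m * z : ℤ) : ℚ) := by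
    intro j i
    obtain ⟨z, hz⟩ := B4_int hL (B4_mact_int (A := Matrix.of A') hA'i (hbas i)) j
    refine ⟨|D1| * |D2| * z, ?_⟩
    rw [eA, B4_mact_add, B4_mact_one, B4_mact_smul, hnF, B4_pair_add, B4_pair_smul, hz, hL.dual,
      Matrix.one_apply]
    have h1 : ((n : ℕ) : ℚ) = (((n : ℕ) : ℤ) : ℚ) := by norm_num
    rw [h1, hn1]
    by_cases hij : i = j
    · rw [if_pos hij, if_pos hij.symm]; push_cast; ring
    · rw [if_neg hij, if_neg (Ne.symm hij)]; push_cast; ring
  have hc : ∀ j i, ∃ z : ℤ, pair d δ (bas j) (mact C (bas i)) = ((m * z : ℤ) : ℚ) := by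
    intro j i
    obtain ⟨z, hz⟩ := hden' (bas j) (mact (Matrix.of C') (bas i)) (hbas j)
      (B4_mact_int (A := Matrix.of C') hC'i (hbas i))
    refine ⟨|D2| * z, ?_⟩
    rw [eC, B4_mact_smul, hnF, B4_pair_comm, B4_pair_smul, B4_pair_comm]
    have h1 : ((n : ℕ) : ℚ) = (((n : ℕ) : ℤ) : ℚ) := by norm_num
    rw [h1, hn1]
    push_cast
    rw [← hz]
    push_cast
    ring
  have hb : ∀ j i, ∃ z : ℤ, pair d δ (-(κ • mact C (dua i))) (dua j) = ((m * z : ℤ) : ℚ) := by
    intro j i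
    have h0 : ∀ l a, IsIntegral ℤ ((κ • mact (Matrix.of C') ((((|D2| : ℤ) : ℚ) : F) • dua i)) l a) := by
      intro l a
      refine hκ.mul (B4_mact_int (A := Matrix.of C') hC'i (fun l a => ?_) l a)
      exact hdua' i l a
    obtain ⟨z, hz⟩ := B4_int hL h0 j
    refine ⟨-(|D1| * z), ?_⟩
    have h2 : κ • mact (Matrix.of C') ((((|D2| : ℤ) : ℚ) : F) • dua i) =
        (((|D2| : ℤ) : ℚ) : F) • (κ • mact (Matrix.of C') (dua i)) := by
      funext l
      simp only [mact, Pi.smul_apply, Matrix.mulVec_smul]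
      rw [smul_comm]
    rw [h2, B4_pair_smul] at hz
    have h3 : -(κ • mact C (dua i)) = (((-((n : ℕ) : ℚ) : ℚ)) : F) • (κ • mact (Matrix.of C') (dua i)) := by
      rw [eC, B4_mact_smul, smul_comm κ]
      push_cast
      rw [neg_smul]
    rw [h3, B4_pair_smul]
    have h1 : ((n : ℕ) : ℚ) = (((n : ℕ) : ℤ) : ℚ) := by norm_num
    rw [h1, hn1]
    push_cast
    rw [← hz]
    push_cast
    ring
  have hdd : ∀ j i, ∃ z : ℤ, pair d δ (bas j) (mact A (dua i)) =
      (((1 : Matrix (Fin g) (Fin g) ℤ) j i + m * z : ℤ) : ℚ) := by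
    intro j i
    have h0 : ∀ l a, IsIntegral ℤ ((mact (Matrix.of A') ((((|D2| : ℤ) : ℚ) : F) • dua i)) l a) := by
      intro l a
      exact B4_mact_int (A := Matrix.of A') hA'i (fun l a => hdua' i l a) l a
    obtain ⟨z, hz⟩ := hden' (bas j) _ (hbas j) h0
    refine ⟨z, ?_⟩
    have h2 : mact (Matrix.of A') ((((|D2| : ℤ) : ℚ) : F) • dua i) =
        (((|D2| : ℤ) : ℚ) : F) • (mact (Matrix.of A') (dua i)) := by
      funext l
      simp only [mact, Pi.smul_apply, Matrix.mulVec_smul]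
    rw [h2, B4_pair_comm, B4_pair_smul, B4_pair_comm] at hz
    rw [eA, B4_mact_add, B4_mact_one, B4_mact_smul, hnF, B4_pair_comm, B4_pair_add, B4_pair_smul,
      B4_pair_comm, hL.dual, B4_pair_comm d δ (mact (Matrix.of A') (dua i)), Matrix.one_apply]
    have h1 : ((n : ℕ) : ℚ) = (((n : ℕ) : ℤ) : ℚ) := by norm_num
    rw [h1, hn1]
    push_cast
    rw [← hz]
    push_cast
    ring
  choose za hza using ha
  choose zb hzb using hb
  choose zc hzc using hc
  choose zd hzd using hdd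
  let Ma : Matrix (Fin g) (Fin g) ℤ := fun j i => (1 : Matrix (Fin g) (Fin g) ℤ) j i + m * za j i
  let Mb : Matrix (Fin g) (Fin g) ℤ := fun j i => m * zb j i
  let Mc : Matrix (Fin g) (Fin g) ℤ := fun j i => m * zc j i
  let Md : Matrix (Fin g) (Fin g) ℤ := fun j i => (1 : Matrix (Fin g) (Fin g) ℤ) j i + m * zd j i
  have hMa : ∀ j i, ((Ma j i : ℤ) : ℚ) = pair d δ (mact A (bas i)) (dua j) := fun j i => (hza j i).symm
  have hMb : ∀ j i, ((Mb j i : ℤ) : ℚ) = pair d δ (-(κ • mact C (dua i))) (dua j) :=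
    fun j i => (hzb j i).symm
  have hMc : ∀ j i, ((Mc j i : ℤ) : ℚ) = pair d δ (bas j) (mact C (bas i)) := fun j i => (hzc j i).symm
  have hMd : ∀ j i, ((Md j i : ℤ) : ℚ) = pair d δ (bas j) (mact A (dua i)) := fun j i => (hzd j i).symm
  have hcast : ∀ z : ℤ, (z : F) = (((z : ℤ) : ℚ) : F) := fun z => by norm_num
  have raa : ∀ i, mact A (bas i) = ∑ j, ((Ma j i : ℤ) : F) • bas j := by
    intro i
    rw [Finset.sum_congr rfl fun j _ => by rw [hcast, hMa]]
    exact B4_expand hL _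
  have rbb : ∀ i, -(κ • mact C (dua i)) = ∑ j, ((Mb j i : ℤ) : F) • bas j := by
    intro i
    rw [Finset.sum_congr rfl fun j _ => by rw [hcast, hMb]]
    exact B4_expand hL _
  have rcc : ∀ i, mact C (bas i) = ∑ j, ((Mc j i : ℤ) : F) • dua j := by
    intro i
    rw [Finset.sum_congr rfl fun j _ => by rw [hcast, hMc]]
    exact hL.expand _
  have rdd : ∀ i, mact A (dua i) = ∑ j, ((Md j i : ℤ) : F) • dua j := by
    intro i
    rw [Finset.sum_congr rfl fun j _ => by rw [hcast, hMd]]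
    exact hL.expand _
  -- sums of products are pairings
  have key : ∀ x y : Fin k → Fin 3 → F,
      ∑ j, pair d δ x (dua j) * pair d δ (bas j) y = pair d δ x y := by
    intro x y
    conv_rhs => rw [B4_expand hL x]
    rw [B4_pair_sum]
  refine ⟨fromBlocks Ma Mb Mc Md, ⟨⟨?_, ?_, ?_⟩, ?_, ?_, ?_, ?_⟩, ?_⟩
  · rw [toBlocks_fromBlocks₁₁, toBlocks_fromBlocks₂₂, toBlocks_fromBlocks₂₁, toBlocks_fromBlocks₁₂]
    ext i j
    have : (((Maᵀ * Md - Mcᵀ * Mb) i j : ℤ) : ℚ) = (((1 : Matrix (Fin g) (Fin g) ℤ) i j : ℤ) : ℚ) := by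
      rw [Matrix.sub_apply, Matrix.mul_apply, Matrix.mul_apply]
      push_cast
      simp only [Matrix.transpose_apply]
      have e1 : ∑ x, ((Ma x i : ℤ) : ℚ) * ((Md x j : ℤ) : ℚ) =
          pair d δ (mact A (bas i)) (mact A (dua j)) := by
        rw [← key]
        exact Finset.sum_congr rfl fun x _ => by rw [hMa, hMd]
      have e2 : ∑ x, ((Mc x i : ℤ) : ℚ) * ((Mb x j : ℤ) : ℚ) =
          pair d δ (-(κ • mact C (dua j))) (mact C (bas i)) := by
        rw [← key]
        exact Finset.sum_congr rfl fun x _ => by rw [hMb, hMc, mul_comm]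
      have e3 : pair d δ (-(κ • mact C (dua j))) (mact C (bas i)) =
          - pair d δ (mact C (bas i)) (κ • mact C (dua j)) := by
        have := B4_pair_smul d δ (-1) (κ • mact C (dua j)) (mact C (bas i))
        rw [Rat.cast_neg, Rat.cast_one, neg_smul, one_smul] at this
        rw [this, B4_pair_comm]; ring
      rw [e1, e2, e3, sub_neg_eq_add, B4_pres δ hU, hL.dual, Matrix.one_apply]
      push_cast
      rfl
    exact_mod_cast this
  · rw [toBlocks_fromBlocks₁₁, toBlocks_fromBlocks₂₁]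
    ext i j
    have : (((Maᵀ * Mc) i j : ℤ) : ℚ) = (((Mcᵀ * Ma) i j : ℤ) : ℚ) := by
      rw [Matrix.mul_apply, Matrix.mul_apply]
      push_cast
      simp only [Matrix.transpose_apply]
      have e1 : ∀ i j, ∑ x, ((Ma x i : ℤ) : ℚ) * ((Mc x j : ℤ) : ℚ) =
          pair d δ (mact A (bas i)) (mact C (bas j)) := by
        intro i j
        rw [← key]
        exact Finset.sum_congr rfl fun x _ => by rw [hMa, hMc]
      rw [e1 i j, Finset.sum_congr rfl fun x _ => mul_comm _ _, e1 j i, B4_pres' δ hU,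
        B4_pair_comm]
    exact_mod_cast this
  · rw [toBlocks_fromBlocks₂₂, toBlocks_fromBlocks₁₂]
    ext i j
    have : (((Mbᵀ * Md) i j : ℤ) : ℚ) = (((Mdᵀ * Mb) i j : ℤ) : ℚ) := by
      rw [Matrix.mul_apply, Matrix.mul_apply]
      push_cast
      simp only [Matrix.transpose_apply]
      have e1 : ∀ i j, ∑ x, ((Mb x i : ℤ) : ℚ) * ((Md x j : ℤ) : ℚ) =
          pair d δ (-(κ • mact C (dua i))) (mact A (dua j)) := by
        intro i j
        rw [← key]
        exact Finset.sum_congr rfl fun x _ => by rw [hMb, hMd]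
      have e2 : ∀ i j, pair d δ (-(κ • mact C (dua i))) (mact A (dua j)) =
          - pair d δ (mact C (κ • dua i)) (mact A (dua j)) := by
        intro i j
        have := B4_pair_smul d δ (-1) (κ • mact C (dua i)) (mact A (dua j))
        rw [Rat.cast_neg, Rat.cast_one, neg_smul, one_smul] at this
        rw [this]
        have h5 : κ • mact C (dua i) = mact C (κ • dua i) := by
          funext l
          simp only [mact, Pi.smul_apply, Matrix.mulVec_smul]
        rw [h5]; ring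
      have e3 : pair d δ (mact C (κ • dua i)) (mact A (dua j)) =
          pair d δ (mact C (κ • dua j)) (mact A (dua i)) := by
        rw [B4_pair_mact, B4_pair_mact, ← hU.2]
        congr 1
        refine Finset.sum_congr rfl fun l _ => ?_
        congr 1
        rw [Pi.smul_apply, Pi.smul_apply, smul_dotProduct, smul_dotProduct]
        congr 1
        have h6 : (Aᵀ * HH d * C)ᵀ = Aᵀ * HH d * C := by
          have h7 : (HH d : Matrix (Fin 3) (Fin 3) F)ᵀ = HH d := by
            unfold HH; rw [Matrix.diagonal_transpose]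
          rw [Matrix.transpose_mul, Matrix.transpose_mul, Matrix.transpose_transpose, h7, hU.2,
            Matrix.mul_assoc]
        rw [Matrix.dotProduct_mulVec, ← Matrix.mulVec_transpose, h6, dotProduct_comm]
      rw [e1 i j, Finset.sum_congr rfl fun x _ => mul_comm _ _, e1 j i, e2, e2, e3]
    exact_mod_cast this
  · intro i
    rw [toBlocks_fromBlocks₁₁]
    exact raa i
  · intro i
    rw [toBlocks_fromBlocks₂₁]
    exact rcc i
  · intro i
    rw [toBlocks_fromBlocks₁₂]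
    exact rbb i
  · intro i
    rw [toBlocks_fromBlocks₂₂]
    exact rdd i
  · have h1 : (1 : Matrix (Fin g ⊕ Fin g) (Fin g ⊕ Fin g) ℤ) = fromBlocks 1 0 0 1 := by
      rw [Matrix.fromBlocks_one]
    intro i j
    rw [h1, Matrix.sub_apply]
    rcases i with i | i <;> rcases j with j | j
    · rw [fromBlocks_apply₁₁, fromBlocks_apply₁₁]
      exact ⟨za i j, by show (1 : Matrix (Fin g) (Fin g) ℤ) i j + m * za i j - _ = _; ring⟩
    · rw [fromBlocks_apply₁₂, fromBlocks_apply₁₂]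
      exact ⟨zb i j, by show m * zb i j - (0 : Matrix (Fin g) (Fin g) ℤ) i j = _; simp⟩
    · rw [fromBlocks_apply₂₁, fromBlocks_apply₂₁]
      exact ⟨zc i j, by show m * zc i j - (0 : Matrix (Fin g) (Fin g) ℤ) i j = _; simp⟩
    · rw [fromBlocks_apply₂₂, fromBlocks_apply₂₂]
      exact ⟨zd i j, by show (1 : Matrix (Fin g) (Fin g) ℤ) i j + m * zd i j - _ = _; ring⟩

end Pool.Agent.helper76.BQ
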