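import Pool.Agent.helper76.BQ.TDefs
import Pool.Agent.helper76.BQ.BDefs
import Pool.Agent.helper76.BQ.BGood
import Pool.Agent.helper76.BQ.T1
import Pool.Agent.helper54.BQ.B8a0
import Pool.Agent.helper4.BQ.B5a
import Pool.Agent.helper20.BQ.B5b
import Pool.Agent.helper63.BQ.B5g
import Pool.Agent.helper99.BQ.B6a
import Pool.Agent.helper93.BQ.B7b0
import Pool.Agent.helper92.BQ.B4

/-!
# Project bq, module B8b: the theta one-form is exact (B1b, B1c, B3 as hypotheses)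
-/

open Matrix Complex

namespace Pool.Agent.helper76.BQ

/-- an entire primitive of `exp (a s ^ 2)` -/
theorem B8b_prim (a : ℂ) : ∃ E : ℂ → ℂ, ∀ s, HasDerivAt E (cexp (a * s ^ 2)) s := by
  refine ⟨fun s => ∑' k : ℕ, (a ^ k / (k.factorial : ℂ)) *
    (s ^ (2 * k + 1) / ((2 * k + 1 : ℕ) : ℂ)), fun s => ?_⟩
  have h1 : ∀ (k : ℕ) (y : ℂ), HasDerivAt (fun s : ℂ => (a ^ k / (k.factorial : ℂ)) *
      (s ^ (2 * k + 1) / ((2 * k + 1 : ℕ) : ℂ))) ((a ^ k / (k.factorial : ℂ)) * y ^ (2 * k)) y := by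
    intro k y
    have h2 := ((hasDerivAt_pow (2 * k + 1) y).div_const (((2 * k + 1 : ℕ)) : ℂ)).const_mul
      (a ^ k / (k.factorial : ℂ))
    have h3 : (((2 * k + 1 : ℕ) : ℂ)) ≠ 0 := Nat.cast_ne_zero.2 (by omega)
    refine h2.congr_deriv ?_
    rw [Nat.add_sub_cancel, mul_div_cancel_left₀ _ h3]
  have hu : Summable (fun k : ℕ => (‖a‖ * (‖s‖ + 1) ^ 2) ^ k / (k.factorial : ℝ)) :=
    Real.summable_pow_div_factorial _
  have h4 := hasDerivAt_tsum_of_isPreconnected (g := fun (k : ℕ) (s : ℂ) =>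
      (a ^ k / (k.factorial : ℂ)) * (s ^ (2 * k + 1) / ((2 * k + 1 : ℕ) : ℂ)))
    (g' := fun (k : ℕ) (y : ℂ) => (a ^ k / (k.factorial : ℂ)) * y ^ (2 * k))
    (t := Metric.ball (0 : ℂ) (‖s‖ + 1)) (y₀ := 0) (y := s) hu Metric.isOpen_ball
    (convex_ball (0 : ℂ) (‖s‖ + 1)).isPreconnected (fun k y _ => h1 k y) (fun k y hy => ?_)
    (by simp; positivity) ?_ (by simp)
  · refine h4.congr_deriv ?_
    rw [Complex.exp_eq_exp_ℂ, NormedSpace.exp_eq_tsum_div]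
    refine tsum_congr fun k => ?_
    rw [mul_pow, ← pow_mul]
    ring
  · rw [norm_mul, norm_div, norm_pow, norm_pow, Complex.norm_natCast]
    have hy' : ‖y‖ ≤ ‖s‖ + 1 := (mem_ball_zero_iff.1 hy).le
    rw [mul_pow, ← pow_mul, div_mul_eq_mul_div]
    gcongr
  · refine summable_zero.congr fun k => ?_
    rw [zero_pow (by omega : 2 * k + 1 ≠ 0)]
    simp

variable {F : Type} [Field F] [NumberField F]

/-- the exponent of the one-form: constant plus `2 m s²` -/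
theorem B8b_expo (κ d : F) (v0 : F →+* ℝ) (M : (F →+* ℝ) → Matrix (Fin 1) (Fin 1) ℝ)
    (x : Fin 1 → Fin 3 → F) : ∃ c : ℂ, ∀ z : Fin 2 → ℂ, expo κ d v0 M x z =
      c + 2 * ((((Real.sqrt (v0 κ))⁻¹ : ℝ) : ℂ) * ((M v0 0 0 : ℝ) : ℂ)) *
        ss (v0 d) (pl v0 (x 0)) z ^ 2 := by
  classical
  refine ⟨∑ v : F →+* ℝ, (((Real.sqrt (v κ))⁻¹ : ℝ) : ℂ) * (((M v 0 0 : ℝ) : ℂ) *
    bil (v d : ℝ) (pl v (x 0)) (pl v (x 0))), fun z => ?_⟩
  unfold expo
  have h1 : ∀ v : F →+* ℝ, (((Real.sqrt (v κ))⁻¹ : ℝ) : ℂ) * ∑ l : Fin 1, ∑ l' : Fin 1,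
      ((M v l l' : ℝ) : ℂ) * qv d v0 v (x l) (x l') z =
      (((Real.sqrt (v κ))⁻¹ : ℝ) : ℂ) * (((M v 0 0 : ℝ) : ℂ) *
        bil (v d : ℝ) (pl v (x 0)) (pl v (x 0))) +
      (if v = v0 then 2 * ((((Real.sqrt (v0 κ))⁻¹ : ℝ) : ℂ) * ((M v0 0 0 : ℝ) : ℂ)) *
        ss (v0 d) (pl v0 (x 0)) z ^ 2 else 0) := by
    intro v
    rw [Fin.sum_univ_one, Fin.sum_univ_one]
    unfold qv
    by_cases hv : v = v0
    · subst hv
      rw [if_pos rfl, if_pos rfl]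
      unfold qz
      ring
    · rw [if_neg hv, if_neg hv, add_zero]
  rw [Finset.sum_congr rfl fun v _ => h1 v, Finset.sum_add_distrib, Finset.sum_ite_eq',
    if_pos (Finset.mem_univ _)]

/-- the embedding of `ℤ^g` -/
noncomputable def B8b_i {g : ℕ} (N : ℕ) (bas : Fin g → Fin 1 → Fin 3 → F) (n : Fin g → ℤ) :
    Fin 1 → Fin 3 → F := ∑ i, ((n i : F) / (N : F)) • bas i

theorem B8b_i_eq {g : ℕ} (N : ℕ) (bas : Fin g → Fin 1 → Fin 3 → F) (n : Fin g → ℤ) :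
    B8b_i N bas n = ∑ i, (((n i : ℚ) / (N : ℚ) : ℚ) : F) • bas i := by
  unfold B8b_i
  exact Finset.sum_congr rfl fun i _ => by push_cast; rfl

theorem B8b_inj {d : F} {δ : Fin 1 → F} {g : ℕ} {bas dua : Fin g → Fin 1 → Fin 3 → F}
    (hL : LB d δ bas dua) {N : ℕ} (hN : 0 < N) : Function.Injective (B8b_i N bas) := by
  intro n n' h
  funext j
  have h1 : ∀ n : Fin g → ℤ, pair d δ (B8b_i N bas n) (dua j) = (n j : ℚ) / (N : ℚ) := by
    intro n
    rw [B8b_i_eq, B4_pair_sum, Finset.sum_eq_single j]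
    · rw [hL.dual, if_pos rfl, mul_one]
    · intro i _ hij
      rw [hL.dual, if_neg hij, mul_zero]
    · intro h; exact absurd (Finset.mem_univ j) h
  have h2 := h1 n
  rw [h, h1 n'] at h2
  have hN' : (N : ℚ) ≠ 0 := by exact_mod_cast hN.ne'
  have h3 : (n' j : ℚ) = n j := by
    field_simp at h2
    exact h2
  exact_mod_cast h3.symm

theorem B8b_expo_i {κ d : F} {v0 : F →+* ℝ} {g N : ℕ} (bas : Fin g → Fin 1 → Fin 3 → F)
    (M : (F →+* ℝ) → Matrix (Fin 1) (Fin 1) ℝ) (z : Fin 2 → ℂ) (n : Fin g → ℤ) :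
    expo κ d v0 M (B8b_i N bas n) z = qf (Zm κ d v0 bas M z) (pt N n) := by
  rw [B8b_i_eq, expo_eq_qf]
  congr 1
  funext i
  unfold pt
  push_cast
  rfl

theorem B8b_pl_i {v0 : F →+* ℝ} {g N : ℕ} (bas : Fin g → Fin 1 → Fin 3 → F) (n : Fin g → ℤ) :
    pl v0 (B8b_i N bas n 0) = ∑ i, pt N n i • pl v0 (bas i 0) := by
  funext a
  unfold pl B8b_i pt
  rw [Finset.sum_apply, Finset.sum_apply, Finset.sum_apply, map_sum]
  push_cast
  refine Finset.sum_congr rfl fun i _ => ?_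
  simp only [Pi.smul_apply, smul_eq_mul, map_mul, map_div₀, map_intCast, map_natCast]
  push_cast
  rfl

/-- the closed ball is compact -/
theorem B8b_compact (r : ℝ) : IsCompact {z : Fin 2 → ℂ | ‖z 0‖ ^ 2 + ‖z 1‖ ^ 2 ≤ r} := by
  refine Metric.isCompact_of_isClosed_isBounded ?_ ?_
  · exact isClosed_le (by fun_prop) continuous_const
  · refine (Metric.isBounded_closedBall (x := (0 : Fin 2 → ℂ)) (r := Real.sqrt r)).subset ?_
    intro z hz
    rw [mem_closedBall_zero_iff, pi_norm_le_iff_of_nonneg (Real.sqrt_nonneg _)]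
    have hz' : ‖z 0‖ ^ 2 + ‖z 1‖ ^ 2 ≤ r := hz
    intro i
    refine Real.le_sqrt_of_sq_le ?_
    fin_cases i
    · have : 0 ≤ ‖z 1‖ ^ 2 := by positivity
      simp only [Fin.zero_eta]
      linarith
    · have : 0 ≤ ‖z 0‖ ^ 2 := by positivity
      simp only [Fin.mk_one]
      linarith

theorem B8b_open (r : ℝ) : IsOpen (Ball r) := by
  unfold Ball
  exact isOpen_lt (by fun_prop) continuous_const

theorem B8b_Zcont0 {κ d : F} {v0 : F →+* ℝ} {k g : ℕ}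
    (bas : Fin g → Fin k → Fin 3 → F) (M : (F →+* ℝ) → Matrix (Fin k) (Fin k) ℝ)
    (h1 : ContinuousOn (fun q : Unit × (Fin 2 → ℂ) => Zm κ d v0 bas M q.2)
      (Set.univ ×ˢ Ball (v0 d))) :
    ContinuousOn (fun z : Fin 2 → ℂ => Zm κ d v0 bas M z) (Ball (v0 d)) := by
  have h2 : ContinuousOn (fun z : Fin 2 → ℂ => (((), z) : Unit × (Fin 2 → ℂ))) (Ball (v0 d)) :=
    (Continuous.prodMk continuous_const continuous_id).continuousOn
  have h3 : Set.MapsTo (fun z : Fin 2 → ℂ => (((), z) : Unit × (Fin 2 → ℂ))) (Ball (v0 d))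
      (Set.univ ×ˢ Ball (v0 d)) := fun z hz => Set.mk_mem_prod (Set.mem_univ _) hz
  have h4 := h1.comp h2 h3
  have h5 : ((fun q : Unit × (Fin 2 → ℂ) => Zm κ d v0 bas M q.2) ∘
      fun z : Fin 2 → ℂ => (((), z) : Unit × (Fin 2 → ℂ))) =
      fun z : Fin 2 → ℂ => Zm κ d v0 bas M z := by
    funext z
    simp only [Function.comp_apply]
  rw [h5] at h4
  exact h4

theorem B8b_Zcont {κ d : F} {v0 : F →+* ℝ} (hd : Data κ d v0) {k g : ℕ}
    (bas : Fin g → Fin k → Fin 3 → F) (M : (F →+* ℝ) → Matrix (Fin k) (Fin k) ℝ) :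
    ContinuousOn (fun z : Fin 2 → ℂ => Zm κ d v0 bas M z) (Ball (v0 d)) := by
  have h1 : ContinuousOn (fun q : Unit × (Fin 2 → ℂ) => Zm κ d v0 bas M q.2)
      (Set.univ ×ˢ Ball (v0 d)) := by
    exact Zm_continuous (P := Unit) hd bas (fun _ => M) (fun v l l' => continuous_const)
  exact B8b_Zcont0 bas M h1

/-- uniform coercivity on compact subsets of the ball -/
theorem B8b_low {κ d : F} {v0 : F →+* ℝ} (hd : Data κ d v0) {g : ℕ} {δ : Fin 1 → F}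
    {bas dua : Fin g → Fin 1 → Fin 3 → F} (hL : LB d δ bas dua)
    {S M : (F →+* ℝ) → Matrix (Fin 1) (Fin 1) ℝ} (hM : MajAll δ v0 S M) {K : Set (Fin 2 → ℂ)}
    (hK : IsCompact K) (hKB : K ⊆ Ball (v0 d)) :
    ∃ c : ℝ, 0 < c ∧ ∀ z ∈ K, ∀ x : Fin g → ℝ,
      c * ∑ i, x i ^ 2 ≤ ∑ i, ∑ j, (Zm κ d v0 bas M z i j).re * x i * x j := by
  have hcont : ContinuousOn (fun z : Fin 2 → ℂ => Zm κ d v0 bas M z) (Ball (v0 d)) :=
    B8b_Zcont hd bas M
  refine IsCompact.induction_on (p := fun s : Set (Fin 2 → ℂ) => ∃ c : ℝ, 0 < c ∧ ∀ z ∈ s,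
    ∀ x : Fin g → ℝ, c * ∑ i, x i ^ 2 ≤ ∑ i, ∑ j, (Zm κ d v0 bas M z i j).re * x i * x j) hK
    ?_ ?_ ?_ ?_
  · exact ⟨1, one_pos, fun z hz => absurd hz (Set.notMem_empty z)⟩
  · rintro s t hst ⟨c, hc, h⟩
    exact ⟨c, hc, fun z hz => h z (hst hz)⟩
  · rintro s t ⟨c, hc, h⟩ ⟨c', hc', h'⟩
    refine ⟨min c c', lt_min hc hc', fun z hz x => ?_⟩
    have hs : 0 ≤ ∑ i, x i ^ 2 := Finset.sum_nonneg fun i _ => sq_nonneg _
    rcases hz with hz | hz
    · exact (mul_le_mul_of_nonneg_right (min_le_left _ _) hs).trans (h z hz x)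
    · exact (mul_le_mul_of_nonneg_right (min_le_right _ _) hs).trans (h' z hz x)
  · intro z hz
    obtain ⟨c, hc, h0⟩ := siegel_coercive (Zm_siegel hd hL hM (hKB hz))
    refine ⟨{z' | ∀ x : Fin g → ℝ, (c / 2) * ∑ i, x i ^ 2 ≤
      ∑ i, ∑ j, (Zm κ d v0 bas M z' i j).re * x i * x j}, ?_, c / 2, by positivity,
      fun z' hz' => hz'⟩
    have h1 : ContinuousWithinAt (fun z : Fin 2 → ℂ => Zm κ d v0 bas M z) K z :=
      (hcont z (hKB hz)).mono hKB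
    have h2 : ∀ᶠ z' in nhdsWithin z K, ∀ i j : Fin g,
        |(Zm κ d v0 bas M z' i j).re - (Zm κ d v0 bas M z i j).re| < c / (2 * (g + 1)) := by
      rw [Filter.eventually_all]
      intro i
      rw [Filter.eventually_all]
      intro j
      have h3 : ContinuousWithinAt (fun z : Fin 2 → ℂ => (Zm κ d v0 bas M z i j).re) K z := by
        have h4 : Continuous (fun A : Matrix (Fin g) (Fin g) ℂ => (A i j).re) :=
          Complex.continuous_re.comp (continuous_id.matrix_elem i j)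
        exact h4.continuousAt.comp_continuousWithinAt h1
      have h5 := h3.tendsto
      rw [Metric.tendsto_nhds] at h5
      have h6 := h5 (c / (2 * (g + 1))) (by positivity)
      filter_upwards [h6] with z' hz'
      rwa [Real.dist_eq] at hz'
    filter_upwards [h2] with z' hz' x
    exact B8a_lower hc h0 hz' x

/-- the bound of the derivative terms -/
theorem B8b_bound {κ d : F} {v0 : F →+* ℝ} (hd : Data κ d v0) {g : ℕ} {δ : Fin 1 → F}
    {bas dua : Fin g → Fin 1 → Fin 3 → F} (hL : LB d δ bas dua)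
    {S M : (F →+* ℝ) → Matrix (Fin 1) (Fin 1) ℝ} (hM : MajAll δ v0 S M)
    {φ : (Fin 1 → Fin 3 → F) → ℂ} {N : ℕ} (hN : 0 < N) {ψ : Sch g N}
    (h1 : ∀ n : Fin g → ℤ, φ (∑ i, ((n i : F) / (N : F)) • bas i) = ψ (red N n))
    (h2 : ∀ x, φ x ≠ 0 → ∃ n : Fin g → ℤ, x = ∑ i, ((n i : F) / (N : F)) • bas i)
    (B1c : ∀ (x : Fin 3 → ℂ) (α : Fin 2) {z : Fin 2 → ℂ}, z ∈ Ball (v0 d) →
      DifferentiableAt ℂ (fun w => dss (v0 d) x w α) z)
    {K : Set (Fin 2 → ℂ)} (hK : IsCompact K) (hKB : K ⊆ Ball (v0 d)) :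
    ∃ u : (Fin 1 → Fin 3 → F) → ℝ, Summable u ∧ ∀ x, ∀ z ∈ K, ∀ α : Fin 2,
      ‖φ x * cexp (-(Real.pi : ℂ) * expo κ d v0 M x z) * dss (v0 d) (pl v0 (x 0)) z α‖ ≤ u x := by
  obtain ⟨c, hc, hlow⟩ := B8b_low hd hL hM hK hKB
  -- bound of dss of the basis
  have hC : ∃ C : ℝ, 0 ≤ C ∧ ∀ z ∈ K, ∀ (i : Fin g) (α : Fin 2),
      ‖dss (v0 d) (pl v0 (bas i 0)) z α‖ ≤ C := by
    have h3 : ∀ (p : Fin g × Fin 2), ∃ C : ℝ, ∀ z ∈ K, ‖dss (v0 d) (pl v0 (bas p.1 0)) z p.2‖ ≤ C := by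
      intro p
      have h4 : ContinuousOn (fun z => dss (v0 d) (pl v0 (bas p.1 0)) z p.2) K :=
        fun z hz => (B1c _ _ (hKB hz)).continuousAt.continuousWithinAt
      exact hK.exists_bound_of_continuousOn h4
    choose C hC using h3
    refine ⟨∑ p : Fin g × Fin 2, |C p|, Finset.sum_nonneg fun p _ => abs_nonneg _,
      fun z hz i α => ?_⟩
    calc ‖dss (v0 d) (pl v0 (bas i 0)) z α‖ ≤ C (i, α) := hC (i, α) z hz
      _ ≤ |C (i, α)| := le_abs_self _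
      _ ≤ ∑ p : Fin g × Fin 2, |C p| :=
        Finset.single_le_sum (f := fun p => |C p|) (fun p _ => abs_nonneg _) (Finset.mem_univ (i, α))
  obtain ⟨C, hC0, hC⟩ := hC
  let u' : (Fin g → ℤ) → ℝ := fun n => C * (‖ψ (red N n)‖ * (1 + ∑ i, |(n i : ℝ)|) ^ 1 *
    ‖cexp (-(Real.pi : ℂ) * qf (Matrix.diagonal fun _ : Fin g => ((c : ℝ) : ℂ)) (pt N n) +
      2 * (Real.pi : ℂ) * I * ∑ i, (0 : Fin g → ℂ) i * pt N n i)‖)
  have hu' : Summable u' := (siegel_summable hN (B8a_diag hc) ψ 0 1).mul_left C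
  have hinj := B8b_inj hL hN
  refine ⟨Function.extend (B8b_i N bas) u' 0, ?_, fun x z hz α => ?_⟩
  · rw [← hinj.summable_iff (f := Function.extend (B8b_i N bas) u' 0)]
    · refine hu'.congr fun n => ?_
      rw [Function.comp_apply, hinj.extend_apply]
    · intro x hx
      rw [Function.extend_apply']
      · rfl
      · rintro ⟨n, hn⟩
        exact hx ⟨n, hn⟩
  · by_cases hx : ∃ n, B8b_i N bas n = x
    · obtain ⟨n, rfl⟩ := hx
      rw [hinj.extend_apply, B8b_expo_i, B8b_pl_i, B7b_dss_sum]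
      have e1 : φ (B8b_i N bas n) = ψ (red N n) := h1 n
      rw [e1, norm_mul, norm_mul, B8a_norm]
      have hN1 : (1 : ℝ) ≤ N := by exact_mod_cast hN
      have e2 : Real.exp (-(Real.pi * ∑ i, ∑ j, (Zm κ d v0 bas M z i j).re * ((n i : ℝ) / N) *
          ((n j : ℝ) / N))) ≤ Real.exp (-(Real.pi * (c * ∑ i, ((n i : ℝ) / N) ^ 2))) := by
        apply Real.exp_le_exp.2
        have := hlow z hz (fun i => (n i : ℝ) / N)
        have hp := Real.pi_pos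
        nlinarith
      have e3 : ‖∑ i, pt N n i * dss (v0 d) (pl v0 (bas i 0)) z α‖ ≤
          C * (1 + ∑ i, |(n i : ℝ)|) ^ 1 := by
        calc ‖∑ i, pt N n i * dss (v0 d) (pl v0 (bas i 0)) z α‖
            ≤ ∑ i, ‖pt N n i * dss (v0 d) (pl v0 (bas i 0)) z α‖ := norm_sum_le _ _
          _ ≤ ∑ i, |(n i : ℝ)| * C := by
              refine Finset.sum_le_sum fun i _ => ?_
              rw [norm_mul]
              refine mul_le_mul ?_ (hC z hz i α) (norm_nonneg _) (abs_nonneg _)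
              unfold pt
              rw [norm_div, Complex.norm_natCast, Complex.norm_intCast]
              exact div_le_self (abs_nonneg _) hN1
          _ = C * ∑ i, |(n i : ℝ)| := by rw [← Finset.sum_mul]; ring
          _ ≤ C * (1 + ∑ i, |(n i : ℝ)|) ^ 1 := by
              rw [pow_one]
              exact mul_le_mul_of_nonneg_left (by linarith) hC0
      show _ ≤ C * (‖ψ (red N n)‖ * (1 + ∑ i, |(n i : ℝ)|) ^ 1 *
        ‖cexp (-(Real.pi : ℂ) * qf (Matrix.diagonal fun _ : Fin g => ((c : ℝ) : ℂ)) (pt N n) +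
          2 * (Real.pi : ℂ) * I * ∑ i, (0 : Fin g → ℂ) i * pt N n i)‖)
      rw [B8a_diag_norm]
      calc ‖ψ (red N n)‖ * Real.exp (-(Real.pi * ∑ i, ∑ j, (Zm κ d v0 bas M z i j).re *
            ((n i : ℝ) / N) * ((n j : ℝ) / N))) *
            ‖∑ i, pt N n i * dss (v0 d) (pl v0 (bas i 0)) z α‖
          ≤ ‖ψ (red N n)‖ * Real.exp (-(Real.pi * (c * ∑ i, ((n i : ℝ) / N) ^ 2))) *
            (C * (1 + ∑ i, |(n i : ℝ)|) ^ 1) := by gcongr
        _ = _ := by ring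
    · rw [Function.extend_apply' _ _ _ hx]
      have h0 : φ x = 0 := by
        by_contra h
        obtain ⟨n, hn⟩ := h2 x h
        exact hx ⟨n, hn.symm⟩
      rw [h0]
      simp

theorem th1_primitive_of
    (B1b : ∀ {D : ℝ} (x : Fin 3 → ℂ) {z : Fin 2 → ℂ}, z ∈ Ball D → HasFDerivAt (ss D x)
      (∑ α : Fin 2, dss D x z α • (ContinuousLinearMap.proj (R := ℂ) (φ := fun _ : Fin 2 => ℂ) α)) z)
    (B1c : ∀ {D : ℝ} (x : Fin 3 → ℂ) (α : Fin 2) {z : Fin 2 → ℂ}, z ∈ Ball D →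
      DifferentiableAt ℂ (fun w => dss D x w α) z ∧ DifferentiableAt ℂ (fun w => qz D x x w) z)
    (B3 : ∀ {κ d : F} {v0 : F →+* ℝ}, Data κ d v0 → ∀ {k : ℕ} (δ : Fin k → F), (∀ l, δ l ≠ 0) →
      ∃ (g : ℕ) (bas dua : Fin g → Fin k → Fin 3 → F), LB d δ bas dua)
    {κ d : F} {v0 : F →+* ℝ} (hd : Data κ d v0) {δ : Fin 1 → F}
    {S M : (F →+* ℝ) → Matrix (Fin 1) (Fin 1) ℝ} (hM : MajAll δ v0 S M)
    {φ : (Fin 1 → Fin 3 → F) → ℂ} (hφ : IsSchw φ) :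
    ∃ G : (Fin 2 → ℂ) → ℂ, ∀ z ∈ Ball (v0 d), HasFDerivAt G
      (∑ α : Fin 2, th1 κ d v0 M φ z α •
        (ContinuousLinearMap.proj (R := ℂ) (φ := fun _ : Fin 2 => ℂ) α)) z := by
  obtain ⟨g, bas, dua, hL⟩ := B3 hd δ hM.ne
  obtain ⟨N, hN, -, ψ, h1, h2⟩ := schw_level hL hφ
  choose cx hcx using B8b_expo κ d v0 M
  set m : ℂ := (((Real.sqrt (v0 κ))⁻¹ : ℝ) : ℂ) * ((M v0 0 0 : ℝ) : ℂ) with hm
  obtain ⟨E, hE⟩ := B8b_prim (-(2 * (Real.pi : ℂ) * m))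
  -- the primitives of the terms
  let P : (Fin 1 → Fin 3 → F) → (Fin 2 → ℂ) → ℂ := fun x z =>
    φ x * cexp (-(Real.pi : ℂ) * cx x) * (E (ss (v0 d) (pl v0 (x 0)) z) -
      E (ss (v0 d) (pl v0 (x 0)) 0))
  let P' : (Fin 1 → Fin 3 → F) → (Fin 2 → ℂ) → ((Fin 2 → ℂ) →L[ℂ] ℂ) := fun x z =>
    ∑ α : Fin 2, (φ x * cexp (-(Real.pi : ℂ) * expo κ d v0 M x z) *
      dss (v0 d) (pl v0 (x 0)) z α) •
        (ContinuousLinearMap.proj (R := ℂ) (φ := fun _ : Fin 2 => ℂ) α)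
  have hP : ∀ x, ∀ z ∈ Ball (v0 d), HasFDerivAt (P x) (P' x z) z := by
    intro x z hz
    have h3 := (hE (ss (v0 d) (pl v0 (x 0)) z)).comp_hasFDerivAt z (B1b (pl v0 (x 0)) hz)
    have h4 := (h3.sub_const (E (ss (v0 d) (pl v0 (x 0)) 0))).const_mul
      (φ x * cexp (-(Real.pi : ℂ) * cx x))
    refine h4.congr_fderiv ?_
    show _ = ∑ α : Fin 2, (φ x * cexp (-(Real.pi : ℂ) * expo κ d v0 M x z) *
      dss (v0 d) (pl v0 (x 0)) z α) •
        (ContinuousLinearMap.proj (R := ℂ) (φ := fun _ : Fin 2 => ℂ) α)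
    rw [Finset.smul_sum, Finset.smul_sum]
    refine Finset.sum_congr rfl fun α _ => ?_
    rw [smul_smul, smul_smul, hcx x z]
    congr 1
    have h5 : -(Real.pi : ℂ) * (cx x + 2 * m * ss (v0 d) (pl v0 (x 0)) z ^ 2) =
        -(Real.pi : ℂ) * cx x + -(2 * (Real.pi : ℂ) * m) * ss (v0 d) (pl v0 (x 0)) z ^ 2 := by ring
    rw [h5, Complex.exp_add]
    ring
  refine ⟨fun z => ∑' x, P x z, fun z hz => ?_⟩
  -- a smaller ball
  have hz1 : ‖z 0‖ ^ 2 + ‖z 1‖ ^ 2 < v0 d := hz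
  obtain ⟨r, hr1, hr2⟩ := exists_between hz1
  have hr0 : 0 < r := lt_of_le_of_lt (by positivity) hr1
  have hKB : {z : Fin 2 → ℂ | ‖z 0‖ ^ 2 + ‖z 1‖ ^ 2 ≤ r} ⊆ Ball (v0 d) := by
    intro w hw
    exact lt_of_le_of_lt hw hr2
  obtain ⟨u, hu, hub⟩ := B8b_bound hd hL hM hN h1 h2
    (fun x α {z} hz => (B1c x α hz).1) (B8b_compact r) hKB
  have hballK : Ball r ⊆ {z : Fin 2 → ℂ | ‖z 0‖ ^ 2 + ‖z 1‖ ^ 2 ≤ r} := by
    intro w hw
    have hw' : ‖w 0‖ ^ 2 + ‖w 1‖ ^ 2 < r := hw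
    exact hw'.le
  have hproj : ∀ α : Fin 2, ‖(ContinuousLinearMap.proj (R := ℂ) (φ := fun _ : Fin 2 => ℂ) α :
      (Fin 2 → ℂ) →L[ℂ] ℂ)‖ ≤ 1 := by
    intro α
    refine ContinuousLinearMap.opNorm_le_bound _ zero_le_one fun w => ?_
    rw [one_mul]
    exact norm_le_pi_norm w α
  have hsum := hasFDerivAt_tsum_of_isPreconnected (f := P) (f' := P') (s := Ball r) (x₀ := 0)
    (x := z) (u := fun x => 2 * u x) (hu.mul_left 2) (B8b_open r) (B7b_ball_preconnected r)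
    (fun x w hw => hP x w (hKB (hballK hw))) (fun x w hw => ?_) ?_ ?_ hr1
  · refine hsum.congr_fderiv ?_
    have hs : ∀ α : Fin 2, Summable fun x : Fin 1 → Fin 3 → F =>
        φ x * cexp (-(Real.pi : ℂ) * expo κ d v0 M x z) * dss (v0 d) (pl v0 (x 0)) z α :=
      fun α => Summable.of_norm_bounded hu fun x => hub x z (hballK hr1) α
    show ∑' x, ∑ α : Fin 2, (φ x * cexp (-(Real.pi : ℂ) * expo κ d v0 M x z) *
      dss (v0 d) (pl v0 (x 0)) z α) •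
        (ContinuousLinearMap.proj (R := ℂ) (φ := fun _ : Fin 2 => ℂ) α : (Fin 2 → ℂ) →L[ℂ] ℂ) = _
    rw [Summable.tsum_finsetSum (fun α _ => (hs α).smul_const _)]
    refine Finset.sum_congr rfl fun α _ => ?_
    rw [(hs α).tsum_smul_const]
    rfl
  · show ‖∑ α : Fin 2, (φ x * cexp (-(Real.pi : ℂ) * expo κ d v0 M x w) *
      dss (v0 d) (pl v0 (x 0)) w α) •
        (ContinuousLinearMap.proj (R := ℂ) (φ := fun _ : Fin 2 => ℂ) α : (Fin 2 → ℂ) →L[ℂ] ℂ)‖ ≤ _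
    refine (norm_sum_le _ _).trans ?_
    rw [Fin.sum_univ_two, two_mul]
    refine add_le_add ?_ ?_
    · rw [norm_smul]
      calc _ ≤ u x * 1 := mul_le_mul (hub x w (hballK hw) 0) (hproj 0) (norm_nonneg _)
            ((norm_nonneg _).trans (hub x w (hballK hw) 0))
        _ = u x := mul_one _
    · rw [norm_smul]
      calc _ ≤ u x * 1 := mul_le_mul (hub x w (hballK hw) 1) (hproj 1) (norm_nonneg _)
            ((norm_nonneg _).trans (hub x w (hballK hw) 1))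
        _ = u x := mul_one _
  · show ‖(0 : Fin 2 → ℂ) 0‖ ^ 2 + ‖(0 : Fin 2 → ℂ) 1‖ ^ 2 < r
    simpa using hr0
  · refine summable_zero.congr fun x => ?_
    show _ = φ x * cexp (-(Real.pi : ℂ) * cx x) * (E (ss (v0 d) (pl v0 (x 0)) 0) -
      E (ss (v0 d) (pl v0 (x 0)) 0))
    rw [sub_self, mul_zero]

end Pool.Agent.helper76.BQ
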