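import Pool.Agent.helper92.BQ.T8bF
import Pool.Agent.helper31.BQ.T6cF

/-!
Project bq: T9, the final theorem of part T.
-/

open Matrix Complex

namespace Pool.Agent.helper76.BQ

/-- T9: final theorem of part T -/
theorem siegel_main {g N : ℕ} (hN : 0 < N) (hev : Even N) :
    ∃ K : ℕ, 0 < K ∧ ∀ M : Matrix (Fin g ⊕ Fin g) (Fin g ⊕ Fin g) ℤ, IsSp M →
      (∀ i j, (2 * N ^ 2 : ℤ) ∣ (M - 1) i j) →
      ∃ J : Matrix (Fin g) (Fin g) ℂ → ℂ, ContinuousOn J {Z | IsSiegel Z} ∧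
        (∀ Z, IsSiegel Z → J Z ^ (2 * K) = (den M Z).det ^ K) ∧
        ∀ Z, IsSiegel Z → ∀ φ : Sch g N,
          (∀ i, Th1 N φ (act M Z) i = J Z * (den M Z *ᵥ Th1 N φ Z) i) ∧
          (∀ i k, Th2 N φ (act M Z) i k = J Z * ((den M Z * (Matrix.of (Th2 N φ Z)) * (den M Z)ᵀ) i k
            - (1 / (2 * (Real.pi : ℂ) * I)) * Th N φ Z 0 * (toC M.toBlocks₁₂ * (den M Z)ᵀ) i k)) :=
  siegel_main_of hN T8b_T1b den_det_ne act_siegel ex_symm (siegel_scalar hN hev)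

end Pool.Agent.helper76.BQ
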