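import Pool.Agent.helper92.BQ.B7aof
import Pool.Agent.helper92.BQ.B8bof
import Pool.Agent.helper92.BQ.T9
import Pool.Agent.helper76.BQ.B2g
import Pool.Agent.helper92.BQ.B4
import Pool.Agent.helper76.BQ.B1
import Pool.Agent.helper76.BQ.B3
import Pool.Agent.helper52.BQ.B2a
import Pool.Agent.helper94.BQ.B2c
import Pool.Agent.helper4.BQ.B5a
import Pool.Agent.helper52.BQ.B5c
import Pool.Agent.helper44.BQ.B5d
import Pool.Agent.helper79.BQ.B5eF
import Pool.Agent.helper99.BQ.B6a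
import Pool.Agent.helper26.BQ.B6bof

/-!
# Project bq, module B7a: the theta one-form is invariant up to roots of unity of bounded order
-/

open Matrix Complex

namespace Pool.Agent.helper76.BQ

variable {F : Type} [Field F] [NumberField F]

theorem B7a_T1b : B6b_T1b := fun _ _ hN _ hZ φ ξ k => siegel_summable hN hZ φ ξ k

/-- B7a -/
theorem th1_inv {κ d : F} {v0 : F →+* ℝ} (hd : Data κ d v0) (hκ : IsIntegral ℤ κ) (hdi : IsIntegral ℤ d)
    {δ : Fin 1 → F} {S M : (F →+* ℝ) → Matrix (Fin 1) (Fin 1) ℝ} (hM : MajAll δ v0 S M)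
    {φ : (Fin 1 → Fin 3 → F) → ℂ} (hφ : IsSchw φ) :
    ∃ n K : ℕ, 0 < n ∧ 0 < K ∧ ∀ A C : Matrix (Fin 3) (Fin 3) F, IsSU κ d A C → Cong n A C →
      ∃ c : ℂ, c ^ K = 1 ∧ ∀ z ∈ Ball (v0 d), ∀ w : Fin 2 → ℂ,
        ∑ α, th1 κ d v0 M φ (mob (evm κ v0 A C) z) α * (fderiv ℂ (mob (evm κ v0 A C)) z w) α =
          c * ∑ α, th1 κ d v0 M φ z α * w α :=
  B7a_of hd hM (fun {_ _} hN hev => siegel_main hN hev)
    (fun {_} hz => nn_re_pos hz)
    (fun {_ _} h {_} hz => ⟨(mob_ball hd.dpos h hz).1, (mob_ball hd.dpos h hz).2.1⟩)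
    (fun {_ _} h {_} hz x w => dss_law hd.dpos h hz x w)
    (fun {_ _} h => (gu_of_su h v0 (hd.kpos v0)).1)
    (fun hδ => lb_exists hd δ hδ)
    (fun hδ {_ _ _} hL m hm => rep_exists hd hκ hdi δ hδ hL m hm)
    (fun {_ _ _} hL {_} hz => Zm_siegel hd hL hM hz)
    (fun {_ _ _} hL {_} hz {_ _ _} hR c l => (den_places hd hL hM hz hR c).1 l)
    (fun {_ _ _} hL {_} hz {_ _} hA {_} hR => act_Zm hd hL hM hz hA hR)
    (fun {_ _ _} hL {_} hz {_ _} hA {_} hR => det_den_Zm hd hL hM hz hA hR)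
    (fun {_} bas => B8b_Zcont hd bas M)
    (fun {_ _ _} hL => schw_level hL hφ)
    (fun {_ _ _} hL {_} hN {_} h1 h2 z hS α => th1_eq_of B7a_T1b hL hN h1 h2 M z hS α)

end Pool.Agent.helper76.BQ
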