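import Pool.Agent.helper92.BQ.B8bof
import Pool.Agent.helper76.BQ.B1
import Pool.Agent.helper76.BQ.B3

/-!
# Project bq, module B8b: the theta one-form is exact
-/

open Matrix Complex

namespace Pool.Agent.helper76.BQ

variable {F : Type} [Field F] [NumberField F]

/-- B8b: the theta one-form is holomorphic and exact on the ball. -/
theorem th1_primitive {κ d : F} {v0 : F →+* ℝ} (hd : Data κ d v0) {δ : Fin 1 → F}
    {S M : (F →+* ℝ) → Matrix (Fin 1) (Fin 1) ℝ} (hM : MajAll δ v0 S M)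
    {φ : (Fin 1 → Fin 3 → F) → ℂ} (hφ : IsSchw φ) :
    ∃ G : (Fin 2 → ℂ) → ℂ, ∀ z ∈ Ball (v0 d), HasFDerivAt G
      (∑ α : Fin 2, th1 κ d v0 M φ z α • (ContinuousLinearMap.proj (R := ℂ) (φ := fun _ : Fin 2 => ℂ) α)) z :=
  th1_primitive_of (fun {_} x {_} hz => ss_hasFDerivAt x hz) (fun {_} x α {_} hz => dss_differentiableAt x α hz)
    (fun {_ _ _} hd {_} δ hδ => lb_exists hd δ hδ) hd hM hφ

end Pool.Agent.helper76.BQ
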