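import Pool.Agent.helper28.BQ.SpecK
import Pool.Agent.helper28.BQ.SpecN

/-!
Project bq, module CN: properly discontinuous unitary groups are countable.
-/

open scoped BigOperators ComplexConjugate Matrix Topology
open MeasureTheory Filter

namespace BQ

/-- closed subballs are compact -/
theorem CN_compact (r : ℝ) : IsCompact {z : Fin 2 → ℂ | ‖z 0‖ ^ 2 + ‖z 1‖ ^ 2 ≤ r} := by
  refine Metric.isCompact_of_isClosed_isBounded ?_ ?_
  · exact isClosed_le (by fun_prop) continuous_const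
  · refine (Metric.isBounded_closedBall (x := (0 : Fin 2 → ℂ)) (r := Real.sqrt r)).subset ?_
    intro z hz
    rw [mem_closedBall_zero_iff, pi_norm_le_iff_of_nonneg (Real.sqrt_nonneg _)]
    have hz' : ‖z 0‖ ^ 2 + ‖z 1‖ ^ 2 ≤ r := hz
    intro i
    refine Real.le_sqrt_of_sq_le ?_
    fin_cases i
    · have : 0 ≤ ‖z 1‖ ^ 2 := by positivity
      simp only [Fin.zero_eta]
      linarith
    · have : 0 ≤ ‖z 0‖ ^ 2 := by positivity
      simp only [Fin.mk_one]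
      linarith

theorem CN (hME : ME_stmt) : CN_stmt := by
  intro t G ht hG hD
  have hsub : (G : Set (Matrix.SpecialLinearGroup (Fin 3) ℂ)) ⊆ ⋃ n : ℕ,
      {g : Matrix.SpecialLinearGroup (Fin 3) ℂ | g ∈ G ∧
        ∃ z ∈ {z : Fin 2 → ℂ | ‖z 0‖ ^ 2 + ‖z 1‖ ^ 2 ≤ t - 1 / (n + 1 : ℝ)},
          mob g z ∈ {z : Fin 2 → ℂ | ‖z 0‖ ^ 2 + ‖z 1‖ ^ 2 ≤ t - 1 / (n + 1 : ℝ)}} := by
    intro g hg
    have h0 : (0 : Fin 2 → ℂ) ∈ Ball t := by
      simp only [Ball, Set.mem_setOf_eq, Pi.zero_apply, norm_zero]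
      simpa using ht
    have h1 : (1 : Matrix (Fin 3) (Fin 3) ℂ)ᴴ * Hm t * 1 = Hm t := by simp
    have h2 := (hME t g 1 0 ht (hG g hg) h1 h0).2.1
    have h3 : ‖mob g 0 0‖ ^ 2 + ‖mob g 0 1‖ ^ 2 < t := h2
    have h4 : 0 < min t (t - (‖mob g 0 0‖ ^ 2 + ‖mob g 0 1‖ ^ 2)) := by
      refine lt_min ht ?_
      linarith
    obtain ⟨n, hn⟩ := exists_nat_one_div_lt h4
    have hn1 := lt_of_lt_of_le hn (min_le_left _ _)
    have hn2 := lt_of_lt_of_le hn (min_le_right _ _)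
    refine Set.mem_iUnion.2 ⟨n, hg, 0, ?_, ?_⟩
    · simp only [Set.mem_setOf_eq, Pi.zero_apply, norm_zero]
      have : (0 : ℝ) ^ 2 + 0 ^ 2 = 0 := by norm_num
      rw [this]
      linarith
    · simp only [Set.mem_setOf_eq]
      linarith
  refine Set.Countable.mono hsub (Set.countable_iUnion fun n => ?_)
  refine (hD _ (CN_compact _) ?_).countable
  intro z hz
  have hz' : ‖z 0‖ ^ 2 + ‖z 1‖ ^ 2 ≤ t - 1 / (n + 1 : ℝ) := hz
  have : 0 < 1 / (n + 1 : ℝ) := by positivity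
  show ‖z 0‖ ^ 2 + ‖z 1‖ ^ 2 < t
  linarith

end BQ
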