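import Pool.Agent.helper28.BQ.SpecK

/-!
Project bq, module HE: the hermitian form at a real place in terms of `hp` and `hq`.
-/

open scoped BigOperators ComplexConjugate Matrix

namespace BQ

theorem HE : HE_stmt := by
  intro F _ kap d v x y x' y' hk
  have hs : (Real.sqrt (v kap) : ℂ) * (Real.sqrt (v kap) : ℂ) = ((v kap : ℝ) : ℂ) := by
    rw [← Complex.ofReal_mul, Real.mul_self_sqrt hk]
  have hI : Complex.I * Complex.I = -1 := Complex.I_mul_I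
  unfold herm emb hp hq bil
  simp only [map_sub, map_mul, map_add, Complex.conj_ofReal, Complex.conj_I, Complex.ofReal_sub,
    Complex.ofReal_mul, Complex.ofReal_add]
  linear_combination
    (((v (y 0) : ℝ) : ℂ) * ((v (y' 0) : ℝ) : ℂ) + ((v (y 1) : ℝ) : ℂ) * ((v (y' 1) : ℝ) : ℂ) -
      ((v d : ℝ) : ℂ) * (((v (y 2) : ℝ) : ℂ) * ((v (y' 2) : ℝ) : ℂ))) * hs -
    (Real.sqrt (v kap) : ℂ) * (Real.sqrt (v kap) : ℂ) *
    (((v (y 0) : ℝ) : ℂ) * ((v (y' 0) : ℝ) : ℂ) + ((v (y 1) : ℝ) : ℂ) * ((v (y' 1) : ℝ) : ℂ) -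
      ((v d : ℝ) : ℂ) * (((v (y 2) : ℝ) : ℂ) * ((v (y' 2) : ℝ) : ℂ))) * hI

end BQ
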