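import Pool.Agent.helper28.BQ.SpecK
import Pool.Agent.helper28.BQ.SpecN

/-!
Project bq, module PS: positivity of the square norm of a nonzero invariant 2-form.
-/

open scoped BigOperators ComplexConjugate Matrix Topology
open MeasureTheory Filter

namespace BQ

theorem PS_isOpen (t : ℝ) : IsOpen (Ball t) := by
  unfold Ball
  exact isOpen_lt (by fun_prop) continuous_const

theorem PS (hME : ME_stmt) (hJC : JC_stmt) : PS_stmt := by
  intro t G ht hG hc _ f hf hinv hne D hD hint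
  have hnn : 0 ≤ ∫ z in D, ‖f z‖ ^ 2 := by
    refine integral_nonneg fun z => ?_
    positivity
  rcases hnn.lt_or_eq with h | h
  · exact h
  exfalso
  obtain ⟨hDm, hDB, hfd⟩ := hD
  -- `f` vanishes almost everywhere on `D`
  have h1 : (fun z => ‖f z‖ ^ 2) =ᵐ[volume.restrict D] 0 := by
    refine (integral_eq_zero_iff_of_nonneg (fun z => ?_) hint).1 h.symm
    simp only [Pi.zero_apply]
    positivity
  have h2 : volume (D ∩ {z | f z ≠ 0}) = 0 := by
    have h3 : ∀ᵐ z ∂(volume.restrict D), ¬ (f z ≠ 0) := by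
      filter_upwards [h1] with z hz
      simp only [Pi.zero_apply] at hz
      simpa using hz
    rw [ae_iff] at h3
    simp only [not_not] at h3
    rw [Measure.restrict_apply₀' hDm.nullMeasurableSet] at h3
    rw [Set.inter_comm]
    exact h3
  -- the open set where `f` does not vanish
  set W : Set (Fin 2 → ℂ) := Ball t ∩ {z | f z ≠ 0} with hW
  have hWo : IsOpen W := by
    have := hf.isOpen_inter_preimage (PS_isOpen t) (isOpen_ne (x := (0 : ℂ)))
    exact this
  have hWne : W.Nonempty := by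
    obtain ⟨z, hz, hz'⟩ := hne
    exact ⟨z, hz, hz'⟩
  have hWpos : 0 < volume W := hWo.measure_pos volume hWne
  have hsub : W ⊆ ⋃ g ∈ (G : Set (Matrix.SpecialLinearGroup (Fin 3) ℂ)),
      mob ((g⁻¹ : Matrix.SpecialLinearGroup (Fin 3) ℂ) : Matrix (Fin 3) (Fin 3) ℂ) ''
        (D ∩ {z | f z ≠ 0}) := by
    rintro z ⟨hz, hfz⟩
    obtain ⟨w, ⟨hwD, g, hg, hgw⟩, -⟩ := hfd z hz
    refine Set.mem_iUnion₂.2 ⟨g, hg, w, ⟨hwD, ?_⟩, ?_⟩
    · intro h0
      have := hinv g hg z hz
      rw [hgw, h0, zero_mul] at this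
      exact hfz this.symm
    · rw [← hgw]
      have h3 := hME t g ((g⁻¹ : Matrix.SpecialLinearGroup (Fin 3) ℂ) : Matrix (Fin 3) (Fin 3) ℂ)
        z ht (hG g hg) (hG _ (inv_mem hg)) hz
      have h4 : ((g⁻¹ : Matrix.SpecialLinearGroup (Fin 3) ℂ) : Matrix (Fin 3) (Fin 3) ℂ) *
          (g : Matrix (Fin 3) (Fin 3) ℂ) = 1 := by
        rw [← Matrix.SpecialLinearGroup.coe_mul, inv_mul_cancel, Matrix.SpecialLinearGroup.coe_one]
      rw [← h3.2.2.2.1, h4]
      exact h3.2.2.2.2.1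
  have hnull : volume (⋃ g ∈ (G : Set (Matrix.SpecialLinearGroup (Fin 3) ℂ)),
      mob ((g⁻¹ : Matrix.SpecialLinearGroup (Fin 3) ℂ) : Matrix (Fin 3) (Fin 3) ℂ) ''
        (D ∩ {z | f z ≠ 0})) = 0 := by
    rw [measure_biUnion_null_iff hc]
    intro g hg
    refine addHaar_image_eq_zero_of_differentiableOn_of_addHaar_eq_zero volume ?_ h2
    intro z hz
    have h3 := ((hJC t ((g⁻¹ : Matrix.SpecialLinearGroup (Fin 3) ℂ) : Matrix (Fin 3) (Fin 3) ℂ) ht
      (hG _ (inv_mem hg))).1 z (hDB hz.1)).1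
    exact (h3.restrictScalars ℝ).differentiableWithinAt
  exact absurd (measure_mono_null hsub hnull) hWpos.ne'

end BQ
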