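import Mathlib
import Pool.Agent.helper76.BQ.TDefs
import Pool.Agent.helper76.BQ.BDefs
import Pool.Agent.helper76.BQ.BGood
import Pool.Agent.helper93.BQ.B7b0

/-!
bq:B7a with all inputs of other modules as explicit hypotheses.
-/

open Matrix Complex

namespace Pool.Agent.helper76.BQ

variable {F : Type} [Field F] [NumberField F]

/-- statement of `siegel_main` (T9) -/
def B7a_T9 : Prop := ∀ {g N : ℕ} (_ : 0 < N) (_ : Even N),
    ∃ K : ℕ, 0 < K ∧ ∀ M : Matrix (Fin g ⊕ Fin g) (Fin g ⊕ Fin g) ℤ, IsSp M →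
      (∀ i j, (2 * N ^ 2 : ℤ) ∣ (M - 1) i j) →
      ∃ J : Matrix (Fin g) (Fin g) ℂ → ℂ, ContinuousOn J {Z | IsSiegel Z} ∧
        (∀ Z, IsSiegel Z → J Z ^ (2 * K) = (den M Z).det ^ K) ∧
        ∀ Z, IsSiegel Z → ∀ φ : Sch g N,
          (∀ i, Th1 N φ (act M Z) i = J Z * (den M Z *ᵥ Th1 N φ Z) i) ∧
          (∀ i k, Th2 N φ (act M Z) i k = J Z * ((den M Z * (Matrix.of (Th2 N φ Z)) * (den M Z)ᵀ) i k
            - (1 / (2 * (Real.pi : ℂ) * I)) * Th N φ Z 0 * (toC M.toBlocks₁₂ * (den M Z)ᵀ) i k))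

/-- the law at one point -/
theorem B7a_point {κ d : F} {v0 : F →+* ℝ} {g N : ℕ} {bas : Fin g → Fin 1 → Fin 3 → F} {ψ : Sch g N}
    {MM : Matrix (Fin g ⊕ Fin g) (Fin g ⊕ Fin g) ℤ} {Mp : (F →+* ℝ) → Matrix (Fin 1) (Fin 1) ℝ}
    {z : Fin 2 → ℂ} {gm gp : Matrix (Fin 3) (Fin 3) ℂ} {φ : (Fin 1 → Fin 3 → F) → ℂ} {j r : ℂ}
    (hth : ∀ α, th1 κ d v0 Mp φ z α = ∑ i, Th1 N ψ (Zm κ d v0 bas Mp z) i *
      dss (v0 d) (pl v0 (bas i 0)) z α)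
    (hth' : ∀ α, th1 κ d v0 Mp φ (mob gm z) α = ∑ i, Th1 N ψ (Zm κ d v0 bas Mp (mob gm z)) i *
      dss (v0 d) (pl v0 (bas i 0)) (mob gm z) α)
    (hact : act MM (Zm κ d v0 bas Mp z) = Zm κ d v0 bas Mp (mob gm z))
    (hlaw : ∀ i, Th1 N ψ (act MM (Zm κ d v0 bas Mp z)) i = j *
      (den MM (Zm κ d v0 bas Mp z) *ᵥ Th1 N ψ (Zm κ d v0 bas Mp z)) i)
    (hden : ∀ k, ∑ i, den MM (Zm κ d v0 bas Mp z) i k • pl v0 (bas i 0) =
      AA (v0 d) gm gp z (pl v0 (bas k 0)))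
    (hform : ∀ (x : Fin 3 → ℂ) (w : Fin 2 → ℂ),
      ∑ α, dss (v0 d) (AA (v0 d) gm gp z x) (mob gm z) α * (fderiv ℂ (mob gm) z w) α =
        r * ∑ α, dss (v0 d) x z α * w α) (w : Fin 2 → ℂ) :
    ∑ α, th1 κ d v0 Mp φ (mob gm z) α * (fderiv ℂ (mob gm) z w) α =
      (j * r) * ∑ α, th1 κ d v0 Mp φ z α * w α := by
  have e1 : ∀ α, th1 κ d v0 Mp φ (mob gm z) α =
      j * ∑ k, Th1 N ψ (Zm κ d v0 bas Mp z) k *
        dss (v0 d) (AA (v0 d) gm gp z (pl v0 (bas k 0))) (mob gm z) α := by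
    intro α
    rw [hth', ← hact]
    simp only [hlaw, Matrix.mulVec, dotProduct]
    rw [Finset.mul_sum]
    calc ∑ i, j * (∑ k, den MM (Zm κ d v0 bas Mp z) i k * Th1 N ψ (Zm κ d v0 bas Mp z) k) *
          dss (v0 d) (pl v0 (bas i 0)) (mob gm z) α
        = ∑ i, ∑ k, j * (Th1 N ψ (Zm κ d v0 bas Mp z) k *
            (den MM (Zm κ d v0 bas Mp z) i k * dss (v0 d) (pl v0 (bas i 0)) (mob gm z) α)) := by
          refine Finset.sum_congr rfl fun i _ => ?_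
          rw [Finset.mul_sum, Finset.sum_mul]
          exact Finset.sum_congr rfl fun k _ => by ring
      _ = ∑ k, ∑ i, j * (Th1 N ψ (Zm κ d v0 bas Mp z) k *
            (den MM (Zm κ d v0 bas Mp z) i k * dss (v0 d) (pl v0 (bas i 0)) (mob gm z) α)) :=
          Finset.sum_comm
      _ = ∑ k, j * (Th1 N ψ (Zm κ d v0 bas Mp z) k *
            dss (v0 d) (AA (v0 d) gm gp z (pl v0 (bas k 0))) (mob gm z) α) := by
          refine Finset.sum_congr rfl fun k _ => ?_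
          rw [← hden k, B7b_dss_sum, Finset.mul_sum, Finset.mul_sum]
  calc ∑ α, th1 κ d v0 Mp φ (mob gm z) α * (fderiv ℂ (mob gm) z w) α
      = ∑ α, ∑ k, j * (Th1 N ψ (Zm κ d v0 bas Mp z) k *
          (dss (v0 d) (AA (v0 d) gm gp z (pl v0 (bas k 0))) (mob gm z) α *
            (fderiv ℂ (mob gm) z w) α)) := by
        refine Finset.sum_congr rfl fun α _ => ?_
        rw [e1, Finset.mul_sum, Finset.sum_mul]
        exact Finset.sum_congr rfl fun k _ => by ring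
    _ = ∑ k, ∑ α, j * (Th1 N ψ (Zm κ d v0 bas Mp z) k *
          (dss (v0 d) (AA (v0 d) gm gp z (pl v0 (bas k 0))) (mob gm z) α *
            (fderiv ℂ (mob gm) z w) α)) := Finset.sum_comm
    _ = ∑ k, j * (Th1 N ψ (Zm κ d v0 bas Mp z) k *
          (r * ∑ α, dss (v0 d) (pl v0 (bas k 0)) z α * w α)) := by
        refine Finset.sum_congr rfl fun k _ => ?_
        rw [← hform, Finset.mul_sum, Finset.mul_sum]
    _ = ∑ k, ∑ α, (j * r) * (Th1 N ψ (Zm κ d v0 bas Mp z) k *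
          dss (v0 d) (pl v0 (bas k 0)) z α * w α) := by
        refine Finset.sum_congr rfl fun k _ => ?_
        rw [Finset.mul_sum, Finset.mul_sum, Finset.mul_sum]
        exact Finset.sum_congr rfl fun α _ => by ring
    _ = ∑ α, ∑ k, (j * r) * (Th1 N ψ (Zm κ d v0 bas Mp z) k *
          dss (v0 d) (pl v0 (bas k 0)) z α * w α) := Finset.sum_comm
    _ = (j * r) * ∑ α, th1 κ d v0 Mp φ z α * w α := by
        rw [Finset.mul_sum]
        refine Finset.sum_congr rfl fun α _ => ?_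
        rw [hth, Finset.sum_mul, Finset.mul_sum]

theorem B7a_cpow_sq {x : ℂ} (hx : x ≠ 0) : (x ^ (1 / 2 : ℂ)) ^ 2 = x := by
  rw [← Complex.cpow_nat_mul]
  norm_num

theorem B7a_of {κ d : F} {v0 : F →+* ℝ} (hd : Data κ d v0)
    {δ : Fin 1 → F} {S M : (F →+* ℝ) → Matrix (Fin 1) (Fin 1) ℝ} (hM : MajAll δ v0 S M)
    {φ : (Fin 1 → Fin 3 → F) → ℂ}
    (hT9 : B7a_T9)
    (hB1a : ∀ {z : Fin 2 → ℂ}, z ∈ Ball (v0 d) → 0 < (nn (v0 d) z).re)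
    (hB2a : ∀ {gm gp : Matrix (Fin 3) (Fin 3) ℂ}, GU (v0 d) gm gp → ∀ {z : Fin 2 → ℂ}, z ∈ Ball (v0 d) →
      (gm *ᵥ lift z) 2 ≠ 0 ∧ mob gm z ∈ Ball (v0 d))
    (hB2c : ∀ {gm gp : Matrix (Fin 3) (Fin 3) ℂ}, GU (v0 d) gm gp → ∀ {z : Fin 2 → ℂ}, z ∈ Ball (v0 d) →
      ∀ (x : Fin 3 → ℂ) (w : Fin 2 → ℂ),
      ∑ α, dss (v0 d) (AA (v0 d) gm gp z x) (mob gm z) α * (fderiv ℂ (mob gm) z w) α =
      nn (v0 d) z ^ (1 / 2 : ℂ) / ((gm *ᵥ lift z) 2 * nn (v0 d) (mob gm z) ^ (1 / 2 : ℂ)) *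
        ∑ α, dss (v0 d) x z α * w α)
    (hB2g : ∀ {A C : Matrix (Fin 3) (Fin 3) F}, IsSU κ d A C → GU (v0 d) (evm κ v0 A C) (evp κ v0 A C))
    (hB3 : (∀ l, δ l ≠ 0) → ∃ (g : ℕ) (bas dua : Fin g → Fin 1 → Fin 3 → F), LB d δ bas dua)
    (hB4 : (∀ l, δ l ≠ 0) → ∀ {g : ℕ} {bas dua : Fin g → Fin 1 → Fin 3 → F}, LB d δ bas dua →
      ∀ m : ℕ, 0 < m → ∃ n : ℕ, 0 < n ∧ ∀ A C : Matrix (Fin 3) (Fin 3) F, IsU κ d A C → Cong n A C →
      ∃ M : Matrix (Fin g ⊕ Fin g) (Fin g ⊕ Fin g) ℤ, Rep κ bas dua A C M ∧ ∀ i j, (m : ℤ) ∣ (M - 1) i j)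
    (hB5a : ∀ {g : ℕ} {bas dua : Fin g → Fin 1 → Fin 3 → F}, LB d δ bas dua → ∀ {z : Fin 2 → ℂ},
      z ∈ Ball (v0 d) → IsSiegel (Zm κ d v0 bas M z))
    (hB5c : ∀ {g : ℕ} {bas dua : Fin g → Fin 1 → Fin 3 → F}, LB d δ bas dua → ∀ {z : Fin 2 → ℂ},
      z ∈ Ball (v0 d) → ∀ {A C : Matrix (Fin 3) (Fin 3) F} {MM : Matrix (Fin g ⊕ Fin g) (Fin g ⊕ Fin g) ℤ},
      Rep κ bas dua A C MM → ∀ (c : Fin g → ℂ) (l : Fin 1),
      ∑ i, (den MM (Zm κ d v0 bas M z) *ᵥ c) i • pl v0 (bas i l) =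
        AA (v0 d) (evm κ v0 A C) (evp κ v0 A C) z (∑ i, c i • pl v0 (bas i l)))
    (hB5d : ∀ {g : ℕ} {bas dua : Fin g → Fin 1 → Fin 3 → F}, LB d δ bas dua → ∀ {z : Fin 2 → ℂ},
      z ∈ Ball (v0 d) → ∀ {A C : Matrix (Fin 3) (Fin 3) F}, IsSU κ d A C →
      ∀ {MM : Matrix (Fin g ⊕ Fin g) (Fin g ⊕ Fin g) ℤ}, Rep κ bas dua A C MM →
      act MM (Zm κ d v0 bas M z) = Zm κ d v0 bas M (mob (evm κ v0 A C) z))
    (hB5e : ∀ {g : ℕ} {bas dua : Fin g → Fin 1 → Fin 3 → F}, LB d δ bas dua → ∀ {z : Fin 2 → ℂ},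
      z ∈ Ball (v0 d) → ∀ {A C : Matrix (Fin 3) (Fin 3) F}, IsSU κ d A C →
      ∀ {MM : Matrix (Fin g ⊕ Fin g) (Fin g ⊕ Fin g) ℤ}, Rep κ bas dua A C MM →
      (den MM (Zm κ d v0 bas M z)).det =
        ((evm κ v0 A C *ᵥ lift z) 2 ^ 2 * nn (v0 d) (mob (evm κ v0 A C) z) / nn (v0 d) z) ^ 1)
    (hB5g : ∀ {g : ℕ} (bas : Fin g → Fin 1 → Fin 3 → F),
      ContinuousOn (fun z : Fin 2 → ℂ => Zm κ d v0 bas M z) (Ball (v0 d)))
    (hB6a : ∀ {g : ℕ} {bas dua : Fin g → Fin 1 → Fin 3 → F}, LB d δ bas dua →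
      ∃ N : ℕ, 0 < N ∧ Even N ∧ ∃ ψ : Sch g N,
        (∀ n : Fin g → ℤ, φ (∑ i, ((n i : F) / (N : F)) • bas i) = ψ (red N n)) ∧
        ∀ x, φ x ≠ 0 → ∃ n : Fin g → ℤ, x = ∑ i, ((n i : F) / (N : F)) • bas i)
    (hB6b : ∀ {g : ℕ} {bas dua : Fin g → Fin 1 → Fin 3 → F}, LB d δ bas dua → ∀ {N : ℕ}, 0 < N →
      ∀ {ψ : Sch g N}, (∀ n : Fin g → ℤ, φ (∑ i, ((n i : F) / (N : F)) • bas i) = ψ (red N n)) →
      (∀ x, φ x ≠ 0 → ∃ n : Fin g → ℤ, x = ∑ i, ((n i : F) / (N : F)) • bas i) →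
      ∀ (z : Fin 2 → ℂ), IsSiegel (Zm κ d v0 bas M z) → ∀ α : Fin 2,
      th1 κ d v0 M φ z α = ∑ i, Th1 N ψ (Zm κ d v0 bas M z) i * dss (v0 d) (pl v0 (bas i 0)) z α) :
    ∃ n K : ℕ, 0 < n ∧ 0 < K ∧ ∀ A C : Matrix (Fin 3) (Fin 3) F, IsSU κ d A C → Cong n A C →
      ∃ c : ℂ, c ^ K = 1 ∧ ∀ z ∈ Ball (v0 d), ∀ w : Fin 2 → ℂ,
        ∑ α, th1 κ d v0 M φ (mob (evm κ v0 A C) z) α * (fderiv ℂ (mob (evm κ v0 A C)) z w) α =
          c * ∑ α, th1 κ d v0 M φ z α * w α := by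
  have hδ : ∀ l, δ l ≠ 0 := hM.ne
  obtain ⟨g, bas, dua, hL⟩ := hB3 hδ
  obtain ⟨N, hN, hev, ψ, hψ1, hψ2⟩ := hB6a hL
  obtain ⟨K, hK, hK9⟩ := hT9 (g := g) hN hev
  obtain ⟨n, hn, hn4⟩ := hB4 hδ hL (2 * N ^ 2) (by positivity)
  refine ⟨n, 2 * K, hn, by positivity, ?_⟩
  intro A C hAC hcong
  obtain ⟨MM, hR, hdiv⟩ := hn4 A C hAC.1 hcong
  obtain ⟨J, hJc, hJK, hJlaw⟩ := hK9 MM hR.sp (by
    intro i j
    have := hdiv i j
    push_cast at this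
    exact this)
  have hGU := hB2g hAC
  have hnn : ∀ z ∈ Ball (v0 d), nn (v0 d) z ≠ 0 := by
    intro z hz h0
    have := hB1a hz
    rw [h0] at this
    simp at this
  -- the quotient
  set r : (Fin 2 → ℂ) → ℂ := fun z => nn (v0 d) z ^ (1 / 2 : ℂ) /
    ((evm κ v0 A C *ᵥ lift z) 2 * nn (v0 d) (mob (evm κ v0 A C) z) ^ (1 / 2 : ℂ)) with hr
  set cc : (Fin 2 → ℂ) → ℂ := fun z => J (Zm κ d v0 bas M z) * r z with hcc
  have hlaw : ∀ z ∈ Ball (v0 d), ∀ w : Fin 2 → ℂ,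
      ∑ α, th1 κ d v0 M φ (mob (evm κ v0 A C) z) α * (fderiv ℂ (mob (evm κ v0 A C)) z w) α =
        cc z * ∑ α, th1 κ d v0 M φ z α * w α := by
    intro z hz w
    have hZ := hB5a hL hz
    have hz' := (hB2a hGU hz).2
    have hZ' := hB5a hL hz'
    refine B7a_point (bas := bas) (ψ := ψ) (MM := MM) (gp := evp κ v0 A C)
      (hB6b hL hN hψ1 hψ2 z hZ) (hB6b hL hN hψ1 hψ2 _ hZ') (hB5d hL hz hAC hR)
      ?_ ?_ (hB2c hGU hz) w
    · intro i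
      exact (hJlaw _ hZ ψ).1 i
    · intro k
      have := hB5c hL hz hR (Pi.single k 1) 0
      rw [Matrix.mulVec_single_one] at this
      have e : ∑ i, (Pi.single k (1 : ℂ) : Fin g → ℂ) i • pl v0 (bas i 0) = pl v0 (bas k 0) := by
        rw [Finset.sum_eq_single k]
        · simp
        · intro i _ hi
          simp [hi]
        · intro h
          exact absurd (Finset.mem_univ k) h
      rw [e] at this
      exact this
  have hroot : ∀ z ∈ Ball (v0 d), cc z ^ (2 * K) = 1 := by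
    intro z hz
    have hZ := hB5a hL hz
    have hz' := (hB2a hGU hz).2
    have h1 := hnn z hz
    have h2 := hnn _ hz'
    have h3 := (hB2a hGU hz).1
    simp only [hcc, hr]
    rw [mul_pow, hJK _ hZ, hB5e hL hz hAC hR, pow_one]
    rw [pow_mul (nn (v0 d) z ^ (1 / 2 : ℂ) /
      ((evm κ v0 A C *ᵥ lift z) 2 * nn (v0 d) (mob (evm κ v0 A C) z) ^ (1 / 2 : ℂ))), ← mul_pow]
    have e : (evm κ v0 A C *ᵥ lift z) 2 ^ 2 * nn (v0 d) (mob (evm κ v0 A C) z) / nn (v0 d) z *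
        (nn (v0 d) z ^ (1 / 2 : ℂ) /
      ((evm κ v0 A C *ᵥ lift z) 2 * nn (v0 d) (mob (evm κ v0 A C) z) ^ (1 / 2 : ℂ))) ^ 2 = 1 := by
      rw [div_pow, mul_pow, B7a_cpow_sq h1, B7a_cpow_sq h2]
      field_simp
    rw [e, one_pow]
  -- continuity
  have hcont : ContinuousOn cc (Ball (v0 d)) := by
    have h1 : ContinuousOn (fun z : Fin 2 → ℂ => J (Zm κ d v0 bas M z)) (Ball (v0 d)) :=
      hJc.comp (hB5g bas) (fun z hz => hB5a hL hz)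
    have hmob : ContinuousOn (mob (evm κ v0 A C)) (Ball (v0 d)) :=
      B7b_continuousOn_mob _ (fun z hz => (hB2a hGU hz).1)
    have h2 : ContinuousOn r (Ball (v0 d)) := by
      refine ContinuousOn.div ?_ ?_ ?_
      · exact (B7b_continuous_nn _).continuousOn.cpow_const
          (fun z hz => Or.inl (hB1a hz))
      · refine (B7b_continuous_mulVec _ 2).continuousOn.mul ?_
        exact ((B7b_continuous_nn _).comp_continuousOn hmob).cpow_const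
          (fun z hz => Or.inl (hB1a (hB2a hGU hz).2))
      · intro z hz
        refine mul_ne_zero (hB2a hGU hz).1 ?_
        intro h0
        have h2 := hnn _ (hB2a hGU hz).2
        have h3 := B7a_cpow_sq h2
        rw [h0] at h3
        apply h2
        rw [← h3]
        norm_num
    exact h1.mul h2
  have hpre : IsPreconnected (Ball (v0 d)) := B7b_ball_preconnected _
  -- roots of unity are a finite set
  set T : Set ℂ := {c : ℂ | c ^ (2 * K) = 1} with hT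
  have hTfin : T.Finite := by
    have hsub : T ⊆ ((Polynomial.X ^ (2 * K) - Polynomial.C 1 : Polynomial ℂ).roots.toFinset : Set ℂ) := by
      intro c hc
      have hne : (Polynomial.X ^ (2 * K) - Polynomial.C 1 : Polynomial ℂ) ≠ 0 :=
        Polynomial.X_pow_sub_C_ne_zero (by positivity) 1
      rw [Finset.mem_coe, Multiset.mem_toFinset, Polynomial.mem_roots hne]
      simp only [Polynomial.IsRoot, Polynomial.eval_sub, Polynomial.eval_pow, Polynomial.eval_X,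
        Polynomial.eval_C]
      rw [sub_eq_zero]
      exact hc
    exact (Finset.finite_toSet _).subset hsub
  have hmaps : Set.MapsTo cc (Ball (v0 d)) T := fun z hz => hroot z hz
  have h0 : (0 : Fin 2 → ℂ) ∈ Ball (v0 d) := by
    show ‖(0 : Fin 2 → ℂ) 0‖ ^ 2 + ‖(0 : Fin 2 → ℂ) 1‖ ^ 2 < v0 d
    simp [hd.dpos]
  refine ⟨cc 0, hroot 0 h0, ?_⟩
  intro z hz w
  have hconst : cc z = cc 0 := hpre.constant_of_mapsTo hTfin.isDiscrete hcont hmaps hz h0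
  rw [hlaw z hz w, hconst]

end Pool.Agent.helper76.BQ
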