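import Pool.Agent.helper28.BQ.SpecK
import Pool.Agent.helper28.BQ.SpecN

/-!
Project bq, module IX: integrals over fundamental domains of subgroups of finite index.
-/

open scoped BigOperators ComplexConjugate Matrix Topology
open MeasureTheory Filter

namespace BQ

/-- coercion to matrices -/
abbrev IX_m (g : Matrix.SpecialLinearGroup (Fin 3) ℂ) : Matrix (Fin 3) (Fin 3) ℂ :=
  (g : Matrix (Fin 3) (Fin 3) ℂ)

theorem IX_mul (hME : ME_stmt) {t : ℝ} (ht : 0 < t)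
    {G : Subgroup (Matrix.SpecialLinearGroup (Fin 3) ℂ)} (hG : Unitary3 t G)
    {g h : Matrix.SpecialLinearGroup (Fin 3) ℂ} (hg : g ∈ G) (hh : h ∈ G) {z : Fin 2 → ℂ}
    (hz : z ∈ Ball t) : mob (IX_m (h * g)) z = mob (IX_m h) (mob (IX_m g) z) := by
  have := (hME t g h z ht (hG g hg) (hG h hh) hz).2.2.2.1
  rw [IX_m, Matrix.SpecialLinearGroup.coe_mul]
  exact this

theorem IX_mem (hME : ME_stmt) {t : ℝ} (ht : 0 < t)
    {G : Subgroup (Matrix.SpecialLinearGroup (Fin 3) ℂ)} (hG : Unitary3 t G)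
    {g : Matrix.SpecialLinearGroup (Fin 3) ℂ} (hg : g ∈ G) {z : Fin 2 → ℂ}
    (hz : z ∈ Ball t) : mob (IX_m g) z ∈ Ball t :=
  (hME t g g z ht (hG g hg) (hG g hg) hz).2.1

theorem IX_one (hME : ME_stmt) {t : ℝ} (ht : 0 < t)
    {G : Subgroup (Matrix.SpecialLinearGroup (Fin 3) ℂ)} (hG : Unitary3 t G) {z : Fin 2 → ℂ}
    (hz : z ∈ Ball t) : mob (IX_m 1) z = z := by
  have := (hME t ((1 : Matrix.SpecialLinearGroup (Fin 3) ℂ) : Matrix (Fin 3) (Fin 3) ℂ)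
    ((1 : Matrix.SpecialLinearGroup (Fin 3) ℂ) : Matrix (Fin 3) (Fin 3) ℂ) z ht
    (hG 1 (one_mem _)) (hG 1 (one_mem _)) hz).2.2.2.2.1
  rw [IX_m, Matrix.SpecialLinearGroup.coe_one]
  exact this

theorem IX_inv (hME : ME_stmt) {t : ℝ} (ht : 0 < t)
    {G : Subgroup (Matrix.SpecialLinearGroup (Fin 3) ℂ)} (hG : Unitary3 t G)
    {g : Matrix.SpecialLinearGroup (Fin 3) ℂ} (hg : g ∈ G) {z : Fin 2 → ℂ}
    (hz : z ∈ Ball t) : mob (IX_m g⁻¹) (mob (IX_m g) z) = z := by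
  rw [← IX_mul hME ht hG hg (inv_mem hg) hz, inv_mul_cancel]
  exact IX_one hME ht hG hz

theorem IX_inv' (hME : ME_stmt) {t : ℝ} (ht : 0 < t)
    {G : Subgroup (Matrix.SpecialLinearGroup (Fin 3) ℂ)} (hG : Unitary3 t G)
    {g : Matrix.SpecialLinearGroup (Fin 3) ℂ} (hg : g ∈ G) {z : Fin 2 → ℂ}
    (hz : z ∈ Ball t) : mob (IX_m g) (mob (IX_m g⁻¹) z) = z := by
  have := IX_inv hME ht hG (inv_mem hg) hz
  rwa [inv_inv] at this

theorem IX_free (hME : ME_stmt) {t : ℝ} (ht : 0 < t)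
    {G : Subgroup (Matrix.SpecialLinearGroup (Fin 3) ℂ)} (hG : Unitary3 t G)
    (hF : ActsFreely t G)
    {g h : Matrix.SpecialLinearGroup (Fin 3) ℂ} (hg : g ∈ G) (hh : h ∈ G) {z : Fin 2 → ℂ}
    (hz : z ∈ Ball t) (he : mob (IX_m g) z = mob (IX_m h) z) : g = h := by
  have h1 : mob (IX_m (h⁻¹ * g)) z = z := by
    rw [IX_mul hME ht hG hg (inv_mem hh) hz, he, IX_inv hME ht hG hh hz]
  have h2 := hF (h⁻¹ * g) (mul_mem (inv_mem hh) hg) z hz h1
  have h3 := congrArg (fun x => h * x) h2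
  simpa using h3

/-- a translate of a fundamental domain is a fundamental domain -/
theorem IX_translate (hME : ME_stmt) (hJC : JC_stmt) {t : ℝ} (ht : 0 < t)
    {G : Subgroup (Matrix.SpecialLinearGroup (Fin 3) ℂ)} (hG : Unitary3 t G)
    {D : Set (Fin 2 → ℂ)} (hD : IsFD t G D) {r : Matrix.SpecialLinearGroup (Fin 3) ℂ}
    (hr : r ∈ G) : IsFD t G (mob (IX_m r) '' D) := by
  obtain ⟨hDm, hDB, hfd⟩ := hD
  refine ⟨?_, ?_, fun z hz => ?_⟩
  · have h1 := hJC t (IX_m r) ht (hG r hr)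
    exact hDm.image_of_continuousOn_injOn (h1.2.2.1.mono hDB) (h1.2.1.mono hDB)
  · rintro _ ⟨z, hz, rfl⟩
    exact IX_mem hME ht hG hr (hDB hz)
  · obtain ⟨w, ⟨hwD, g, hg, hgw⟩, huniq⟩ := hfd z hz
    refine ⟨mob (IX_m r) w, ⟨⟨w, hwD, rfl⟩, r * g, mul_mem hr hg, ?_⟩, ?_⟩
    · show mob (IX_m (r * g)) z = _
      rw [IX_mul hME ht hG hg hr hz]
      show mob (IX_m r) (mob (IX_m g) z) = _
      rw [show mob (IX_m g) z = w from hgw]
    · rintro w' ⟨⟨d, hdD, rfl⟩, h, hh, hhw⟩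
      have h1 : d = w := by
        refine huniq d ⟨hdD, r⁻¹ * h, mul_mem (inv_mem hr) hh, ?_⟩
        show mob (IX_m (r⁻¹ * h)) z = _
        rw [IX_mul hME ht hG hh (inv_mem hr) hz, show mob (IX_m h) z = mob (IX_m r) d from hhw,
          IX_inv hME ht hG hr (hDB hdD)]
      rw [h1]

theorem IX (hME : ME_stmt) (hJC : JC_stmt) (hIV : IV_stmt) : IX_stmt := by
  intro t G G' ht hG hc hF hle hidx u hu hinv D D' hD hD' hint
  classical
  have hDm := hD.1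
  have hDB := hD.2.1
  have hfd := hD.2.2
  -- the finite set of cosets
  let Q : Type := ↥G ⧸ (G'.subgroupOf G)
  have hQf : Finite Q := by
    have h1 : (G'.subgroupOf G).FiniteIndex := ⟨hidx⟩
    exact Subgroup.finite_quotient_of_finiteIndex
  let _ : Fintype Q := Fintype.ofFinite Q
  let r : Q → Matrix.SpecialLinearGroup (Fin 3) ℂ := fun q => ((Quotient.out q : ↥G) :
    Matrix.SpecialLinearGroup (Fin 3) ℂ)
  have hr : ∀ q, r q ∈ G := fun q => (Quotient.out q : ↥G).2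
  -- cosets
  have hcos : ∀ (q q' : Q) (γ γ' : Matrix.SpecialLinearGroup (Fin 3) ℂ), γ ∈ G' → γ' ∈ G' →
      r q * γ = r q' * γ' → q = q' := by
    intro q q' γ γ' hγ hγ' he
    have h1 : (QuotientGroup.mk (Quotient.out q : ↥G) : Q) =
        QuotientGroup.mk (Quotient.out q' : ↥G) := by
      rw [QuotientGroup.eq, Subgroup.mem_subgroupOf]
      have h2 : (((Quotient.out q : ↥G)⁻¹ * (Quotient.out q' : ↥G) : ↥G) :
          Matrix.SpecialLinearGroup (Fin 3) ℂ) = γ * γ'⁻¹ := by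
        show (r q)⁻¹ * r q' = γ * γ'⁻¹
        rw [inv_mul_eq_iff_eq_mul, ← mul_assoc, he, mul_assoc, mul_inv_cancel, mul_one]
      rw [h2]
      exact mul_mem hγ (inv_mem hγ')
    have h3 : ∀ q : Q, (QuotientGroup.mk (Quotient.out q : ↥G) : Q) = q :=
      fun q => QuotientGroup.out_eq' q
    rw [h3, h3] at h1
    exact h1
  have hrep : ∀ g ∈ G, ∃ q : Q, (r q)⁻¹ * g ∈ G' := by
    intro g hg
    let q : Q := QuotientGroup.mk (⟨g, hg⟩ : ↥G)
    refine ⟨q, ?_⟩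
    have h1 : (QuotientGroup.mk (Quotient.out q : ↥G) : Q) = QuotientGroup.mk (⟨g, hg⟩ : ↥G) :=
      QuotientGroup.out_eq' q
    rw [QuotientGroup.eq, Subgroup.mem_subgroupOf] at h1
    exact h1
  -- the translates
  let T : Q → Set (Fin 2 → ℂ) := fun q => mob (IX_m (r q)⁻¹) '' D
  have hT : ∀ q, IsFD t G (T q) := fun q => IX_translate hME hJC ht hG hD (inv_mem (hr q))
  have hIVq : ∀ q, (IntegrableOn u (T q)) ∧ ∫ z in D, u z = ∫ z in T q, u z := by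
    intro q
    have := hIV t G ht hG hc hF u hu hinv D (T q) hD (hT q)
    exact ⟨this.1 hint, this.2⟩
  have hkey : ∀ (q q' : Q) (z : Fin 2 → ℂ), z ∈ Ball t → ∀ (d d' : Fin 2 → ℂ), d ∈ D → d' ∈ D →
      ∀ γ γ' : Matrix.SpecialLinearGroup (Fin 3) ℂ, γ ∈ G' → γ' ∈ G' →
      mob (IX_m γ) z = mob (IX_m (r q)⁻¹) d → mob (IX_m γ') z = mob (IX_m (r q')⁻¹) d' →
      q = q' ∧ d = d' := by
    intro q q' z hz d d' hd hd' γ γ' hγ hγ' h1 h2
    have e1 : mob (IX_m (r q * γ)) z = d := by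
      rw [IX_mul hME ht hG (hle hγ) (hr q) hz, h1, IX_inv' hME ht hG (hr q) (hDB hd)]
    have e2 : mob (IX_m (r q' * γ')) z = d' := by
      rw [IX_mul hME ht hG (hle hγ') (hr q') hz, h2, IX_inv' hME ht hG (hr q') (hDB hd')]
    have e3 : d = d' := by
      obtain ⟨w, -, huniq⟩ := hfd z hz
      rw [huniq d ⟨hd, _, mul_mem (hr q) (hle hγ), e1⟩,
        huniq d' ⟨hd', _, mul_mem (hr q') (hle hγ'), e2⟩]
    have e4 := IX_free hME ht hG hF (mul_mem (hr q) (hle hγ)) (mul_mem (hr q') (hle hγ')) hz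
      (by rw [e1, e2, e3])
    exact ⟨hcos q q' γ γ' hγ hγ' e4, e3⟩
  have hdisj : Pairwise (Function.onFun Disjoint T) := by
    intro q q' hqq
    rw [Function.onFun, Set.disjoint_left]
    rintro z ⟨d, hd, hdz⟩ ⟨d', hd', hdz'⟩
    have hz : z ∈ Ball t := by
      rw [← hdz]
      exact IX_mem hME ht hG (inv_mem (hr q)) (hDB hd)
    refine hqq (hkey q q' z hz d d' hd hd' 1 1 (one_mem _) (one_mem _) ?_ ?_).1
    · rw [IX_one hME ht hG hz, hdz]
    · rw [IX_one hME ht hG hz, hdz']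
  have hU : IsFD t G' (⋃ q, T q) := by
    refine ⟨MeasurableSet.iUnion fun q => (hT q).1, Set.iUnion_subset fun q => (hT q).2.1,
      fun z hz => ?_⟩
    obtain ⟨w, ⟨hwD, g, hg, hgw⟩, huniq⟩ := hfd z hz
    obtain ⟨q, hq⟩ := hrep g hg
    have hw1 : mob (IX_m ((r q)⁻¹ * g)) z = mob (IX_m (r q)⁻¹) w := by
      rw [IX_mul hME ht hG hg (inv_mem (hr q)) hz, show mob (IX_m g) z = w from hgw]
    refine ⟨mob (IX_m (r q)⁻¹) w, ⟨Set.mem_iUnion.2 ⟨q, w, hwD, rfl⟩, (r q)⁻¹ * g, hq, hw1⟩, ?_⟩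
    rintro w' ⟨hw', γ', hγ', hγw⟩
    obtain ⟨q', d', hd', rfl⟩ := Set.mem_iUnion.1 hw'
    obtain ⟨e1, e2⟩ := hkey q q' z hz w d' hwD hd' ((r q)⁻¹ * g) γ' hq hγ' hw1 hγw
    rw [← e1, ← e2]
  have hG'u : Unitary3 t G' := fun g hg => hG g (hle hg)
  have hc' : (G' : Set (Matrix.SpecialLinearGroup (Fin 3) ℂ)).Countable := hc.mono hle
  have hF' : ActsFreely t G' := fun g hg => hF g (hle hg)
  have hIV' := hIV t G' ht hG'u hc' hF' u hu (fun g hg => hinv g (hle hg)) (⋃ q, T q) D' hU hD'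
  have hintU : IntegrableOn u (⋃ q, T q) := by
    rw [integrableOn_finite_iUnion]
    exact fun q => (hIVq q).1
  refine ⟨hIV'.1 hintU, ?_⟩
  rw [← hIV'.2, integral_iUnion_fintype (fun q => (hT q).1) hdisj (fun q => (hIVq q).1)]
  rw [Finset.sum_congr rfl fun q _ => (hIVq q).2.symm, Finset.sum_const, nsmul_eq_mul]
  congr 2
  rw [Finset.card_univ, ← Nat.card_eq_fintype_card]
  rfl

end BQ
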