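import Pool.Agent.helper76.BQ.TDefs
import Pool.Agent.helper51.BQ.T8a

/-!
Project bq, module T8b: the laws of the derivatives of the theta series.
-/

open Matrix Complex

namespace Pool.Agent.helper76.BQ

/-- the input from T8a: first and second derivatives at `0` (`Th_deriv`) -/
def T8b_deriv (g N : ℕ) : Prop :=
  ∀ {Z : Matrix (Fin g) (Fin g) ℂ}, IsSiegel Z → ∀ (φ : Sch g N) (u w : Fin g → ℂ),
    deriv (fun t : ℂ => Th N φ Z (t • u)) 0 = 2 * (Real.pi : ℂ) * I * ∑ i, u i * Th1 N φ Z i ∧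
    (∀ t : ℂ, DifferentiableAt ℂ (fun t : ℂ => Th N φ Z (t • u)) t) ∧
    deriv (fun s : ℂ => deriv (fun t : ℂ => Th N φ Z (t • u + s • w)) 0) 0 =
      (2 * (Real.pi : ℂ) * I) ^ 2 * ∑ i, ∑ j, u i * w j * Th2 N φ Z i j

/-- the input from T8a: differentiability on lines (`Th_diff_line`) -/
def T8b_line (g N : ℕ) : Prop :=
  ∀ {Z : Matrix (Fin g) (Fin g) ℂ}, IsSiegel Z → ∀ (φ : Sch g N) (u w : Fin g → ℂ) (s t : ℂ),
    DifferentiableAt ℂ (fun t : ℂ => Th N φ Z (t • u + s • w)) t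

/-- the input from T8a: differentiability of the first derivative (`Th_diff_deriv`) -/
def T8b_dd (g N : ℕ) : Prop :=
  ∀ {Z : Matrix (Fin g) (Fin g) ℂ}, IsSiegel Z → ∀ (φ : Sch g N) (u w : Fin g → ℂ),
    DifferentiableAt ℂ (fun s : ℂ => deriv (fun t : ℂ => Th N φ Z (t • u + s • w)) 0) 0

/-- quadratic form along a plane -/
theorem T8b_quad {g : ℕ} (B : Matrix (Fin g) (Fin g) ℂ) (hB : Bᵀ = B) (u w : Fin g → ℂ) (t s : ℂ) :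
    (t • u + s • w) ⬝ᵥ (B *ᵥ (t • u + s • w)) =
      t ^ 2 * (u ⬝ᵥ (B *ᵥ u)) + 2 * (t * s) * (u ⬝ᵥ (B *ᵥ w)) + s ^ 2 * (w ⬝ᵥ (B *ᵥ w)) := by
  have h1 : w ⬝ᵥ (B *ᵥ u) = u ⬝ᵥ (B *ᵥ w) := by
    rw [dotProduct_comm, ← Matrix.vecMul_transpose, hB, Matrix.dotProduct_mulVec]
  simp only [Matrix.mulVec_add, Matrix.mulVec_smul, add_dotProduct, dotProduct_add, smul_dotProduct,
    dotProduct_smul, smul_eq_mul, h1]
  ring

/-- the law in the variable `x`, `ξ = Dᵀ x` -/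
theorem T8b_law {g N : ℕ} {M : Matrix (Fin g ⊕ Fin g) (Fin g ⊕ Fin g) ℤ}
    {Z : Matrix (Fin g) (Fin g) ℂ} (hdet : (den M Z).det ≠ 0) (φ : Sch g N) (j : ℂ)
    (h : ∀ ξ : Fin g → ℂ, Th N φ (act M Z) ((den M Z)⁻¹ᵀ *ᵥ ξ) =
            j * cexp (-((Real.pi : ℂ) * I * (ξ ⬝ᵥ (ex M Z *ᵥ ξ)))) * Th N φ Z ξ) (x : Fin g → ℂ) :
    Th N φ (act M Z) x = j * cexp (-((Real.pi : ℂ) * I *
      (x ⬝ᵥ ((toC M.toBlocks₁₂ * (den M Z)ᵀ) *ᵥ x)))) * Th N φ Z ((den M Z)ᵀ *ᵥ x) := by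
  have hu : IsUnit (den M Z).det := isUnit_iff_ne_zero.2 hdet
  have h1 := h ((den M Z)ᵀ *ᵥ x)
  have h2 : (den M Z)⁻¹ᵀ *ᵥ ((den M Z)ᵀ *ᵥ x) = x := by
    rw [Matrix.mulVec_mulVec, ← Matrix.transpose_mul, Matrix.mul_nonsing_inv _ hu,
      Matrix.transpose_one, Matrix.one_mulVec]
  have h3 : ((den M Z)ᵀ *ᵥ x) ⬝ᵥ (ex M Z *ᵥ ((den M Z)ᵀ *ᵥ x)) =
      x ⬝ᵥ ((toC M.toBlocks₁₂ * (den M Z)ᵀ) *ᵥ x) := by
    unfold ex
    rw [Matrix.mulVec_mulVec, Matrix.mulVec_transpose, ← Matrix.dotProduct_mulVec,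
      Matrix.mulVec_mulVec, Matrix.mul_assoc, ← Matrix.mul_assoc (den M Z),
      Matrix.mul_nonsing_inv _ hu, Matrix.one_mul]
  rw [h2, h3] at h1
  exact h1

theorem T8b_symm {g : ℕ} {M : Matrix (Fin g ⊕ Fin g) (Fin g ⊕ Fin g) ℤ}
    {Z : Matrix (Fin g) (Fin g) ℂ} (hdet : (den M Z).det ≠ 0) (hex : (ex M Z)ᵀ = ex M Z) :
    (toC M.toBlocks₁₂ * (den M Z)ᵀ)ᵀ = toC M.toBlocks₁₂ * (den M Z)ᵀ := by
  have hu : IsUnit (den M Z).det := isUnit_iff_ne_zero.2 hdet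
  have h1 : toC M.toBlocks₁₂ * (den M Z)ᵀ = den M Z * ex M Z * (den M Z)ᵀ := by
    unfold ex
    rw [← Matrix.mul_assoc (den M Z), Matrix.mul_nonsing_inv _ hu, Matrix.one_mul]
  rw [h1, Matrix.transpose_mul, Matrix.transpose_mul, Matrix.transpose_transpose, hex,
    Matrix.mul_assoc]

theorem siegel_grad_of {g N : ℕ} (hTD : T8b_deriv g N) (hTL : T8b_line g N) (hTT : T8b_dd g N)
    {M : Matrix (Fin g ⊕ Fin g) (Fin g ⊕ Fin g) ℤ}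
    {Z : Matrix (Fin g) (Fin g) ℂ} (hZ : IsSiegel Z) (hdet : (den M Z).det ≠ 0)
    (hact : IsSiegel (act M Z)) (hex : (ex M Z)ᵀ = ex M Z) (φ : Sch g N) (j : ℂ)
    (h : ∀ ξ : Fin g → ℂ, Th N φ (act M Z) ((den M Z)⁻¹ᵀ *ᵥ ξ) =
            j * cexp (-((Real.pi : ℂ) * I * (ξ ⬝ᵥ (ex M Z *ᵥ ξ)))) * Th N φ Z ξ) :
    (∀ i, Th1 N φ (act M Z) i = j * (den M Z *ᵥ Th1 N φ Z) i) ∧
    (∀ i k, Th2 N φ (act M Z) i k = j * ((den M Z * (Matrix.of (Th2 N φ Z)) * (den M Z)ᵀ) i k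
      - (1 / (2 * (Real.pi : ℂ) * I)) * Th N φ Z 0 * (toC M.toBlocks₁₂ * (den M Z)ᵀ) i k)) := by
  have hpi : (2 * (Real.pi : ℂ) * I) ≠ 0 := by
    simp [Real.pi_ne_zero, Complex.I_ne_zero]
  set D := den M Z with hD
  set B := toC M.toBlocks₁₂ * Dᵀ with hB
  have hBs : Bᵀ = B := T8b_symm hdet hex
  have hlaw := T8b_law hdet φ j h
  -- derivative in `t` of the right hand side
  have hrhs : ∀ (u w : Fin g → ℂ) (s : ℂ),
      HasDerivAt (fun t : ℂ => Th N φ (act M Z) (t • u + s • w))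
        (j * cexp (-((Real.pi : ℂ) * I * (s ^ 2 * (w ⬝ᵥ (B *ᵥ w))))) *
          ((-((Real.pi : ℂ) * I * (2 * s * (u ⬝ᵥ (B *ᵥ w))))) * Th N φ Z (s • (Dᵀ *ᵥ w)) +
            deriv (fun t : ℂ => Th N φ Z (t • (Dᵀ *ᵥ u) + s • (Dᵀ *ᵥ w))) 0)) 0 := by
    intro u w s
    have e1 : (fun t : ℂ => Th N φ (act M Z) (t • u + s • w)) = fun t : ℂ =>
        (j * cexp (-((Real.pi : ℂ) * I * (t ^ 2 * (u ⬝ᵥ (B *ᵥ u)) + 2 * (t * s) * (u ⬝ᵥ (B *ᵥ w)) +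
          s ^ 2 * (w ⬝ᵥ (B *ᵥ w)))))) * Th N φ Z (t • (Dᵀ *ᵥ u) + s • (Dᵀ *ᵥ w)) := by
      funext t
      rw [hlaw, T8b_quad B hBs, Matrix.mulVec_add, Matrix.mulVec_smul, Matrix.mulVec_smul]
    rw [e1]
    have d1 : HasDerivAt (fun t : ℂ => -((Real.pi : ℂ) * I * (t ^ 2 * (u ⬝ᵥ (B *ᵥ u)) +
        2 * (t * s) * (u ⬝ᵥ (B *ᵥ w)) + s ^ 2 * (w ⬝ᵥ (B *ᵥ w)))))
        (-((Real.pi : ℂ) * I * (2 * s * (u ⬝ᵥ (B *ᵥ w))))) 0 := by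
      have a1 : HasDerivAt (fun t : ℂ => t ^ 2 * (u ⬝ᵥ (B *ᵥ u))) (0 * (u ⬝ᵥ (B *ᵥ u))) 0 := by
        have := (hasDerivAt_pow 2 (0 : ℂ)).mul_const (u ⬝ᵥ (B *ᵥ u))
        simpa using this
      have a2 : HasDerivAt (fun t : ℂ => 2 * (t * s) * (u ⬝ᵥ (B *ᵥ w)))
          (2 * (1 * s) * (u ⬝ᵥ (B *ᵥ w))) 0 :=
        (((hasDerivAt_id (0 : ℂ)).mul_const s).const_mul 2).mul_const _
      have a3 := ((a1.add a2).add_const (s ^ 2 * (w ⬝ᵥ (B *ᵥ w)))).const_mul ((Real.pi : ℂ) * I)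
      have a4 : HasDerivAt (fun t : ℂ => -((Real.pi : ℂ) * I * (t ^ 2 * (u ⬝ᵥ (B *ᵥ u)) +
          2 * (t * s) * (u ⬝ᵥ (B *ᵥ w)) + s ^ 2 * (w ⬝ᵥ (B *ᵥ w)))))
          (-((Real.pi : ℂ) * I * (0 * (u ⬝ᵥ (B *ᵥ u)) + 2 * (1 * s) * (u ⬝ᵥ (B *ᵥ w))))) 0 :=
        a3.neg
      exact a4.congr_deriv (by ring)
    have d2 := (d1.cexp).const_mul j
    have d3 := (hTL hZ φ (Dᵀ *ᵥ u) (Dᵀ *ᵥ w) s 0).hasDerivAt
    have d4 := d2.mul d3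
    have d5 : HasDerivAt (fun t : ℂ =>
        (j * cexp (-((Real.pi : ℂ) * I * (t ^ 2 * (u ⬝ᵥ (B *ᵥ u)) + 2 * (t * s) * (u ⬝ᵥ (B *ᵥ w)) +
          s ^ 2 * (w ⬝ᵥ (B *ᵥ w)))))) * Th N φ Z (t • (Dᵀ *ᵥ u) + s • (Dᵀ *ᵥ w))) _ 0 := d4
    refine d5.congr_deriv ?_
    simp only [zero_smul, zero_add, zero_mul, mul_zero, zero_pow (two_ne_zero)]
    ring
  have hfirst : ∀ u : Fin g → ℂ, ∑ i, u i * Th1 N φ (act M Z) i =
      j * ∑ i, (Dᵀ *ᵥ u) i * Th1 N φ Z i := by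
    intro u
    have e1 := (hrhs u 0 0).deriv
    simp only [smul_zero (0 : ℂ), add_zero, Matrix.mulVec_zero] at e1
    rw [(hTD hact φ u 0).1, (hTD hZ φ (Dᵀ *ᵥ u) 0).1] at e1
    have e2 : 2 * (Real.pi : ℂ) * I * (∑ i, u i * Th1 N φ (act M Z) i) =
        2 * (Real.pi : ℂ) * I * (j * ∑ i, (Dᵀ *ᵥ u) i * Th1 N φ Z i) := by
      rw [e1]
      simp
      ring
    exact mul_left_cancel₀ hpi e2
  have hsecond : ∀ u w : Fin g → ℂ, ∑ i, ∑ k, u i * w k * Th2 N φ (act M Z) i k =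
      j * (∑ i, ∑ k, (Dᵀ *ᵥ u) i * (Dᵀ *ᵥ w) k * Th2 N φ Z i k -
        (1 / (2 * (Real.pi : ℂ) * I)) * Th N φ Z 0 * (u ⬝ᵥ (B *ᵥ w))) := by
    intro u w
    have e1 : (fun s : ℂ => deriv (fun t : ℂ => Th N φ (act M Z) (t • u + s • w)) 0) = fun s : ℂ =>
        (j * cexp (-((Real.pi : ℂ) * I * (s ^ 2 * (w ⬝ᵥ (B *ᵥ w)))))) *
          ((-((Real.pi : ℂ) * I * (2 * s * (u ⬝ᵥ (B *ᵥ w))))) * Th N φ Z (s • (Dᵀ *ᵥ w)) +
            deriv (fun t : ℂ => Th N φ Z (t • (Dᵀ *ᵥ u) + s • (Dᵀ *ᵥ w))) 0) := by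
      funext s
      exact (hrhs u w s).deriv
    have d1 : HasDerivAt (fun s : ℂ => -((Real.pi : ℂ) * I * (s ^ 2 * (w ⬝ᵥ (B *ᵥ w))))) 0 0 := by
      have a1 : HasDerivAt (fun s : ℂ => s ^ 2 * (w ⬝ᵥ (B *ᵥ w))) (0 * (w ⬝ᵥ (B *ᵥ w))) 0 := by
        have := (hasDerivAt_pow 2 (0 : ℂ)).mul_const (w ⬝ᵥ (B *ᵥ w))
        simpa using this
      have a2 : HasDerivAt (fun s : ℂ => -((Real.pi : ℂ) * I * (s ^ 2 * (w ⬝ᵥ (B *ᵥ w)))))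
          (-((Real.pi : ℂ) * I * (0 * (w ⬝ᵥ (B *ᵥ w))))) 0 :=
        (a1.const_mul ((Real.pi : ℂ) * I)).neg
      exact a2.congr_deriv (by ring)
    have d2 := (d1.cexp).const_mul j
    have d3 : HasDerivAt (fun s : ℂ => -((Real.pi : ℂ) * I * (2 * s * (u ⬝ᵥ (B *ᵥ w)))))
        (-((Real.pi : ℂ) * I * (2 * 1 * (u ⬝ᵥ (B *ᵥ w))))) 0 :=
      ((((hasDerivAt_id (0 : ℂ)).const_mul 2).mul_const (u ⬝ᵥ (B *ᵥ w))).const_mul
        ((Real.pi : ℂ) * I)).neg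
    have d4 := ((hTD hZ φ (Dᵀ *ᵥ w) 0).2.1 0).hasDerivAt
    have d5 := (hTT hZ φ (Dᵀ *ᵥ u) (Dᵀ *ᵥ w)).hasDerivAt
    have d6 := d2.mul ((d3.mul d4).add d5)
    have e2 := (hTD hact φ u w).2.2
    rw [e1] at e2
    have e3 := d6.deriv
    rw [(hTD hZ φ (Dᵀ *ᵥ u) (Dᵀ *ᵥ w)).2.2] at e3
    have e4 := e2.symm.trans e3
    have hpi2 : (2 * (Real.pi : ℂ) * I) ^ 2 ≠ 0 := pow_ne_zero 2 hpi
    apply mul_left_cancel₀ hpi2
    rw [e4]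
    simp only [zero_smul, mul_zero, zero_pow (two_ne_zero), zero_mul, neg_zero, Complex.exp_zero,
      mul_one, add_zero]
    field_simp
    ring
  refine ⟨fun i => ?_, fun i k => ?_⟩
  · have h1 := hfirst (Pi.single i 1)
    have h2 : ∑ l, (Pi.single i (1 : ℂ) : Fin g → ℂ) l * Th1 N φ (act M Z) l =
        Th1 N φ (act M Z) i := by
      rw [Finset.sum_eq_single i]
      · simp
      · intro b _ hb
        rw [Pi.single_eq_of_ne hb, zero_mul]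
      · intro h; exact absurd (Finset.mem_univ i) h
    rw [h2] at h1
    rw [h1]
    congr 1
    rw [Matrix.mulVec, dotProduct]
    refine Finset.sum_congr rfl fun l _ => ?_
    congr 1
    simp [Matrix.mulVec_single]
  · have h1 := hsecond (Pi.single i 1) (Pi.single k 1)
    have h2 : ∑ l, ∑ m, (Pi.single i (1 : ℂ) : Fin g → ℂ) l * (Pi.single k (1 : ℂ) : Fin g → ℂ) m *
        Th2 N φ (act M Z) l m = Th2 N φ (act M Z) i k := by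
      rw [Finset.sum_eq_single i]
      · rw [Finset.sum_eq_single k]
        · simp
        · intro b _ hb
          rw [Pi.single_eq_of_ne hb, mul_zero, zero_mul]
        · intro h; exact absurd (Finset.mem_univ k) h
      · intro b _ hb
        refine Finset.sum_eq_zero fun m _ => ?_
        rw [Pi.single_eq_of_ne hb, zero_mul, zero_mul]
      · intro h; exact absurd (Finset.mem_univ i) h
    have h3 : ∑ l, ∑ m, (Dᵀ *ᵥ Pi.single i (1 : ℂ)) l * (Dᵀ *ᵥ Pi.single k (1 : ℂ)) m *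
        Th2 N φ Z l m = (D * Matrix.of (Th2 N φ Z) * Dᵀ) i k := by
      simp only [Matrix.mulVec_single_one, Matrix.col_apply, Matrix.transpose_apply]
      rw [Matrix.mul_apply]
      simp only [Matrix.mul_apply, Matrix.of_apply, Matrix.transpose_apply, Finset.sum_mul]
      rw [Finset.sum_comm]
      refine Finset.sum_congr rfl fun l _ => Finset.sum_congr rfl fun m _ => ?_
      ring
    have h4 : (Pi.single i (1 : ℂ) : Fin g → ℂ) ⬝ᵥ (B *ᵥ Pi.single k 1) = B i k := by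
      rw [Matrix.mulVec_single_one, single_one_dotProduct, Matrix.col_apply]
    rw [h2, h3, h4] at h1
    exact h1

/-! ### the inputs from T8a -/

theorem T8b_deriv_of (H : T8a_T1b) {g N : ℕ} (hN : 0 < N) : T8b_deriv g N :=
  fun {_} hZ φ u w => Th_deriv_of H hN hZ φ u w

theorem T8b_hasDeriv (H : T8a_T1b) {g N : ℕ} (hN : 0 < N) {Z : Matrix (Fin g) (Fin g) ℂ}
    (hZ : IsSiegel Z) (φ : Sch g N) (u w : Fin g → ℂ) (s t : ℂ) :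
    HasDerivAt (fun t : ℂ => Th N φ Z (t • u + s • w))
      (∑' n, (T8a_A N φ Z n * cexp (s * T8a_b N w n)) * T8a_b N u n * cexp (t * T8a_b N u n)) t := by
  have hA := T8a_rapid_A H hN hZ φ
  have hA' := T8a_rapid_exp T8a_M_nonneg hA (T8a_b_le hN w) s
  have h := T8a_hasDerivAt T8a_M_nonneg hA' (T8a_b_le hN u) t
  refine h.congr_of_eventuallyEq ?_
  exact Filter.Eventually.of_forall fun t => T8a_Th_eq Z φ u w t s

theorem T8b_line_of (H : T8a_T1b) {g N : ℕ} (hN : 0 < N) : T8b_line g N :=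
  fun {_} hZ φ u w s t => (T8b_hasDeriv H hN hZ φ u w s t).differentiableAt

theorem T8b_dd_of (H : T8a_T1b) {g N : ℕ} (hN : 0 < N) : T8b_dd g N := by
  intro Z hZ φ u w
  have hA := T8a_rapid_A H hN hZ φ
  have hfun : (fun s : ℂ => deriv (fun t : ℂ => Th N φ Z (t • u + s • w)) 0) =
      fun s : ℂ => ∑' n, (T8a_A N φ Z n * T8a_b N u n) * cexp (s * T8a_b N w n) := by
    funext s
    rw [(T8b_hasDeriv H hN hZ φ u w s 0).deriv]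
    refine tsum_congr fun n => ?_
    rw [zero_mul, Complex.exp_zero]
    ring
  rw [hfun]
  exact (T8a_hasDerivAt T8a_M_nonneg (T8a_rapid_mul T8a_M_nonneg hA (T8a_b_le hN u))
    (T8a_b_le hN w) 0).differentiableAt

/-! ### the final theorem of part T, from the inputs -/

/-- the statement of T6c (`siegel_scalar`) for `g`, `N` -/
def T8b_scalar (g N : ℕ) : Prop :=
    ∃ K : ℕ, 0 < K ∧ ∀ M : Matrix (Fin g ⊕ Fin g) (Fin g ⊕ Fin g) ℤ, IsSp M →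
      (∀ i j, (2 * N ^ 2 : ℤ) ∣ (M - 1) i j) →
      ∃ J : Matrix (Fin g) (Fin g) ℂ → ℂ, ContinuousOn J {Z | IsSiegel Z} ∧
        (∀ Z, IsSiegel Z → J Z ^ (2 * K) = (den M Z).det ^ K) ∧
        ∀ Z, IsSiegel Z → ∀ (ξ : Fin g → ℂ) (φ : Sch g N),
          Th N φ (act M Z) ((den M Z)⁻¹ᵀ *ᵥ ξ) =
            J Z * cexp (-((Real.pi : ℂ) * I * (ξ ⬝ᵥ (ex M Z *ᵥ ξ)))) * Th N φ Z ξ

theorem siegel_main_of {g N : ℕ} (hN : 0 < N) (H : T8a_T1b)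
    (hden : ∀ {M : Matrix (Fin g ⊕ Fin g) (Fin g ⊕ Fin g) ℤ}, IsSp M →
      ∀ {Z : Matrix (Fin g) (Fin g) ℂ}, IsSiegel Z → (den M Z).det ≠ 0)
    (hact : ∀ {M : Matrix (Fin g ⊕ Fin g) (Fin g ⊕ Fin g) ℤ}, IsSp M →
      ∀ {Z : Matrix (Fin g) (Fin g) ℂ}, IsSiegel Z → IsSiegel (act M Z))
    (hex : ∀ {M : Matrix (Fin g ⊕ Fin g) (Fin g ⊕ Fin g) ℤ}, IsSp M →
      ∀ {Z : Matrix (Fin g) (Fin g) ℂ}, IsSiegel Z → (ex M Z)ᵀ = ex M Z)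
    (hS : T8b_scalar g N) :
    ∃ K : ℕ, 0 < K ∧ ∀ M : Matrix (Fin g ⊕ Fin g) (Fin g ⊕ Fin g) ℤ, IsSp M →
      (∀ i j, (2 * N ^ 2 : ℤ) ∣ (M - 1) i j) →
      ∃ J : Matrix (Fin g) (Fin g) ℂ → ℂ, ContinuousOn J {Z | IsSiegel Z} ∧
        (∀ Z, IsSiegel Z → J Z ^ (2 * K) = (den M Z).det ^ K) ∧
        ∀ Z, IsSiegel Z → ∀ φ : Sch g N,
          (∀ i, Th1 N φ (act M Z) i = J Z * (den M Z *ᵥ Th1 N φ Z) i) ∧
          (∀ i k, Th2 N φ (act M Z) i k = J Z * ((den M Z * (Matrix.of (Th2 N φ Z)) * (den M Z)ᵀ) i k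
            - (1 / (2 * (Real.pi : ℂ) * I)) * Th N φ Z 0 *
              (toC M.toBlocks₁₂ * (den M Z)ᵀ) i k)) := by
  obtain ⟨K, hK, hM⟩ := hS
  refine ⟨K, hK, fun M hsp hdvd => ?_⟩
  obtain ⟨J, hJc, hJp, hJ⟩ := hM M hsp hdvd
  refine ⟨J, hJc, hJp, fun Z hZ φ => ?_⟩
  exact siegel_grad_of (T8b_deriv_of H hN) (T8b_line_of H hN) (T8b_dd_of H hN) hZ (hden hsp hZ)
    (hact hsp hZ) (hex hsp hZ) φ (J Z) (fun ξ => hJ Z hZ ξ φ)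

end Pool.Agent.helper76.BQ
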