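import Pool.Agent.helper92.BQ.T8b
import Pool.Agent.helper76.BQ.T1
import Pool.Agent.helper82.BQ.T2a
import Pool.Agent.helper93.BQ.T2b

/-!
Project bq, module T8b: `siegel_grad` verbatim.
-/

open Matrix Complex

namespace Pool.Agent.helper76.BQ

theorem T8b_T1b : T8a_T1b := fun {_ _} hN {_} hZ φ ξ k => siegel_summable hN hZ φ ξ k

/-- T8b: the laws for the gradient and the second order series -/
theorem siegel_grad {g N : ℕ} (hN : 0 < N) {M : Matrix (Fin g ⊕ Fin g) (Fin g ⊕ Fin g) ℤ} (hM : IsSp M)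
    {Z : Matrix (Fin g) (Fin g) ℂ} (hZ : IsSiegel Z) (φ : Sch g N) (j : ℂ)
    (h : ∀ ξ : Fin g → ℂ, Th N φ (act M Z) ((den M Z)⁻¹ᵀ *ᵥ ξ) =
            j * cexp (-((Real.pi : ℂ) * I * (ξ ⬝ᵥ (ex M Z *ᵥ ξ)))) * Th N φ Z ξ) :
    (∀ i, Th1 N φ (act M Z) i = j * (den M Z *ᵥ Th1 N φ Z) i) ∧
    (∀ i k, Th2 N φ (act M Z) i k = j * ((den M Z * (Matrix.of (Th2 N φ Z)) * (den M Z)ᵀ) i k
      - (1 / (2 * (Real.pi : ℂ) * I)) * Th N φ Z 0 * (toC M.toBlocks₁₂ * (den M Z)ᵀ) i k)) :=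
  siegel_grad_of (T8b_deriv_of T8b_T1b hN) (T8b_line_of T8b_T1b hN) (T8b_dd_of T8b_T1b hN) hZ
    (den_det_ne hM hZ) (act_siegel hM hZ) (ex_symm hM hZ) φ j h

end Pool.Agent.helper76.BQ
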